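import Mathlib
import Pool.Agent.Lib.MP_d5700b_nt.Periodic

/-!
# An elementary large sieve
-/

namespace Pool.Agent.Lib.MP_509488_nt.Density

open Finset Pool.Agent.Lib.MP_d5700b_nt

/-- Correlation of two products of mean zero periodic functions. -/
theorem corr (Λ : Finset ℕ) (hΛ : ∀ l ∈ Λ, l.Prime) (X : ℕ) (hX1 : 1 ≤ X) (hX : ∀ l ∈ Λ, l ≤ X)
    (G : ℕ → ℕ → ℝ) (hper : ∀ l ∈ Λ, Per (G l) l) (hb : ∀ l ∈ Λ, ∀ x, |G l x| ≤ 1)
    (hmean : ∀ l ∈ Λ, ∑ x ∈ range l, G l x = 0)
    (hvar : ∀ l ∈ Λ, ∑ x ∈ range l, G l x ^ 2 ≤ 1 / 4 * l) (u : ℕ) (D D' : Finset ℕ)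
    (hD : D ∈ Λ.powersetCard u) (hD' : D' ∈ Λ.powersetCard u) (T : ℕ) :
    ∑ x ∈ range T, (∏ l ∈ D, G l x) * (∏ l ∈ D', G l x) ≤
      (if D = D' then (T : ℝ) * (1 / 4) ^ u else 0) + 2 * (X : ℝ) ^ (2 * u) := by
  classical
  rw [mem_powersetCard] at hD hD'
  set U := D ∪ D' with hU
  have hUΛ : ∀ l ∈ U, l ∈ Λ := by
    intro l hl
    rcases mem_union.1 hl with h | h
    · exact hD.1 h
    · exact hD'.1 h
  set h : ℕ → ℕ → ℝ := fun l x => (if l ∈ D then G l x else 1) * (if l ∈ D' then G l x else 1)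
    with hh
  have hprod : ∀ x, (∏ l ∈ D, G l x) * (∏ l ∈ D', G l x) = ∏ l ∈ U, h l x := by
    intro x
    rw [hh, prod_mul_distrib]
    congr 1
    · rw [prod_ite_mem, hU, union_inter_cancel_left]
    · rw [prod_ite_mem, hU, union_inter_cancel_right]
  have happ := sum_prod_approx U id h
    (by
      intro l hl t
      simp only [hh, id]
      have := hper l (hUΛ l hl) t
      rw [this])
    (fun l hl => (hΛ l (hUΛ l hl)).ne_zero)
    (fun l hl l' hl' hne => (Nat.coprime_primes (hΛ l (hUΛ l hl)) (hΛ l' (hUΛ l' hl'))).2 hne)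
    (by
      intro l hl t
      have h1 := hb l (hUΛ l hl) t
      simp only [hh]
      rw [abs_mul]
      apply mul_le_one₀ _ (abs_nonneg _)
      · split_ifs
        · exact h1
        · simp
      · split_ifs
        · exact h1
        · simp) T
  simp only [id] at happ
  rw [sum_congr rfl (fun x _ => hprod x)]
  have h1 := (abs_le.1 happ).2
  -- the error
  have hX1r : (1 : ℝ) ≤ X := by exact_mod_cast hX1
  have herr : ∏ l ∈ U, (l : ℝ) ≤ (X : ℝ) ^ (2 * u) := by
    calc ∏ l ∈ U, (l : ℝ) ≤ ∏ l ∈ U, (X : ℝ) := by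
          apply prod_le_prod
          · intro l _; exact Nat.cast_nonneg l
          · intro l hl
            exact_mod_cast hX l (hUΛ l hl)
      _ = (X : ℝ) ^ U.card := by rw [prod_const]
      _ ≤ (X : ℝ) ^ (2 * u) := by
          apply pow_le_pow_right₀ hX1r
          calc U.card ≤ D.card + D'.card := card_union_le _ _
            _ = 2 * u := by rw [hD.2, hD'.2]; ring
  have hmain : ∏ l ∈ U, ((∑ x ∈ range l, h l x) / l) ≤ if D = D' then (1 / 4 : ℝ) ^ u else 0 := by
    split_ifs with heq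
    · have hUD : U = D := by rw [hU, ← heq, union_self]
      rw [hUD]
      calc ∏ l ∈ D, ((∑ x ∈ range l, h l x) / l) ≤ ∏ l ∈ D, (1 / 4 : ℝ) := by
            apply prod_le_prod
            · intro l hl
              apply div_nonneg _ (Nat.cast_nonneg l)
              apply sum_nonneg
              intro x _
              simp only [hh, ← heq, if_pos hl]
              exact mul_self_nonneg _
            · intro l hl
              have hl0 : (0 : ℝ) < l := by exact_mod_cast (hΛ l (hD.1 hl)).pos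
              rw [div_le_iff₀ hl0]
              refine le_trans (le_of_eq ?_) (hvar l (hD.1 hl))
              apply sum_congr rfl
              intro x _
              simp only [hh, ← heq, if_pos hl]
              ring
        _ = (1 / 4 : ℝ) ^ u := by rw [prod_const, hD.2]
    · apply le_of_eq
      obtain ⟨p, hp⟩ : ∃ p, ¬ (p ∈ D ↔ p ∈ D') := by
        by_contra hcon
        push Not at hcon
        exact heq (Finset.ext hcon)
      have hpU : p ∈ U := by
        rw [hU, mem_union]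
        by_contra hcon
        push Not at hcon
        exact hp ⟨fun h => absurd h hcon.1, fun h => absurd h hcon.2⟩
      apply prod_eq_zero hpU
      have h2 : ∑ x ∈ range p, h p x = ∑ x ∈ range p, G p x := by
        apply sum_congr rfl
        intro x _
        simp only [hh]
        by_cases h3 : p ∈ D <;> by_cases h4 : p ∈ D'
        · exact absurd ⟨fun _ => h4, fun _ => h3⟩ hp
        · rw [if_pos h3, if_neg h4, mul_one]
        · rw [if_neg h3, if_pos h4, one_mul]
        · exact absurd ⟨fun h => absurd h h3, fun h => absurd h h4⟩ hp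
      rw [h2, hmean p (hUΛ p hpU), zero_div]
  have hT0 : (0 : ℝ) ≤ T := Nat.cast_nonneg _
  have h3 : (T : ℝ) * ∏ l ∈ U, ((∑ x ∈ range l, h l x) / l) ≤
      (if D = D' then (T : ℝ) * (1 / 4) ^ u else 0) := by
    refine (mul_le_mul_of_nonneg_left hmain hT0).trans (le_of_eq ?_)
    split_ifs <;> ring
  linarith

/-- **Elementary large sieve**: the number of `x < T` with `I l x = 1` for all `l ∈ Λ`. -/
theorem large_sieve (Λ : Finset ℕ) (hΛ : ∀ l ∈ Λ, l.Prime) (X : ℕ) (hX1 : 1 ≤ X)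
    (hX : ∀ l ∈ Λ, l ≤ X)
    (I : ℕ → ℕ → ℝ) (hper : ∀ l ∈ Λ, Per (I l) l) (hI : ∀ l x, I l x = 0 ∨ I l x = 1)
    (hdens : ∀ l ∈ Λ, ∑ x ∈ range l, I l x ≤ 11 / 20 * l) (u : ℕ) (hu : u ≤ Λ.card) (T : ℕ)
    (S : Finset ℕ) (hS : ∀ x ∈ S, x < T ∧ ∀ l ∈ Λ, I l x = 1) :
    (S.card : ℝ) ≤ 5 ^ u * ((T : ℝ) * (1 / 4) ^ u / (Λ.card.choose u : ℝ) +
      2 * (X : ℝ) ^ (2 * u)) := by
  classical
  set α : ℕ → ℝ := fun l => (∑ x ∈ range l, I l x) / l with hα
  set G : ℕ → ℕ → ℝ := fun l x => I l x - α l with hG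
  have hlpos : ∀ l ∈ Λ, (0 : ℝ) < l := fun l hl => by exact_mod_cast (hΛ l hl).pos
  have hα0 : ∀ l ∈ Λ, 0 ≤ α l := by
    intro l hl
    apply div_nonneg _ (hlpos l hl).le
    apply sum_nonneg
    intro x _
    rcases hI l x with h | h <;> rw [h]
    norm_num
  have hα1 : ∀ l ∈ Λ, α l ≤ 11 / 20 := by
    intro l hl
    rw [hα]
    simp only
    rw [div_le_iff₀ (hlpos l hl)]
    exact hdens l hl
  have hGb : ∀ l ∈ Λ, ∀ x, |G l x| ≤ 1 := by
    intro l hl x
    have h1 := hα0 l hl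
    have h2 := hα1 l hl
    simp only [hG]
    rw [abs_le]
    rcases hI l x with h | h <;> rw [h] <;> constructor <;> linarith
  have hsum : ∀ l ∈ Λ, ∑ x ∈ range l, I l x = α l * l := by
    intro l hl
    rw [hα]
    simp only
    rw [div_mul_cancel₀ _ (hlpos l hl).ne']
  have hmean : ∀ l ∈ Λ, ∑ x ∈ range l, G l x = 0 := by
    intro l hl
    simp only [hG]
    rw [sum_sub_distrib, hsum l hl, sum_const, card_range, nsmul_eq_mul]
    ring
  have hvar : ∀ l ∈ Λ, ∑ x ∈ range l, G l x ^ 2 ≤ 1 / 4 * l := by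
    intro l hl
    have h1 : ∀ x, G l x ^ 2 = (1 - 2 * α l) * I l x + α l ^ 2 := by
      intro x
      simp only [hG]
      rcases hI l x with h | h <;> rw [h] <;> ring
    rw [sum_congr rfl (fun x _ => h1 x), sum_add_distrib, ← mul_sum, hsum l hl, sum_const,
      card_range, nsmul_eq_mul]
    have h2 : (1 - 2 * α l) * (α l * l) + l * α l ^ 2 = (α l * (1 - α l)) * l := by ring
    rw [h2]
    apply mul_le_mul_of_nonneg_right _ (hlpos l hl).le
    nlinarith [sq_nonneg (α l - 1 / 2)]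
  have hperG : ∀ l ∈ Λ, Per (G l) l := by
    intro l hl t
    simp only [hG]
    rw [hper l hl t]
  set P := Λ.powersetCard u with hP
  have hPcard : P.card = Λ.card.choose u := card_powersetCard u Λ
  have hPpos : (0 : ℝ) < (Λ.card.choose u : ℝ) := by
    exact_mod_cast Nat.choose_pos hu
  set W : ℕ → ℝ := fun x => ∑ D ∈ P, ∏ l ∈ D, G l x with hW
  -- upper bound
  have hup : ∑ x ∈ range T, W x ^ 2 ≤ (Λ.card.choose u : ℝ) * ((T : ℝ) * (1 / 4) ^ u) +
      (Λ.card.choose u : ℝ) ^ 2 * (2 * (X : ℝ) ^ (2 * u)) := by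
    calc ∑ x ∈ range T, W x ^ 2
        = ∑ D ∈ P, ∑ D' ∈ P, ∑ x ∈ range T, (∏ l ∈ D, G l x) * (∏ l ∈ D', G l x) := by
          simp only [hW, sq, sum_mul_sum]
          rw [sum_comm]
          apply sum_congr rfl
          intro D _
          rw [sum_comm]
      _ ≤ ∑ D ∈ P, ∑ D' ∈ P, ((if D = D' then (T : ℝ) * (1 / 4) ^ u else 0) +
            2 * (X : ℝ) ^ (2 * u)) := by
          apply sum_le_sum
          intro D hD
          apply sum_le_sum
          intro D' hD'
          exact corr Λ hΛ X hX1 hX G hperG hGb hmean hvar u D D' hD hD' T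
      _ = _ := by
          simp only [sum_add_distrib, sum_const, nsmul_eq_mul, hPcard]
          rw [sum_congr rfl (g := fun _ => (T : ℝ) * (1 / 4) ^ u)
            (fun D hD => by rw [sum_ite_eq, if_pos hD]), sum_const, nsmul_eq_mul, hPcard]
          ring
  -- lower bound
  have hlow : ∀ x ∈ S, ((Λ.card.choose u : ℝ) * (9 / 20) ^ u) ^ 2 ≤ W x ^ 2 := by
    intro x hx
    apply pow_le_pow_left₀ (by positivity)
    rw [← hPcard, ← nsmul_eq_mul, ← sum_const]
    simp only [hW]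
    apply sum_le_sum
    intro D hD
    rw [mem_powersetCard] at hD
    rw [← hD.2, ← prod_const]
    apply prod_le_prod
    · intro l _; norm_num
    · intro l hl
      have h1 := hα1 l (hD.1 hl)
      simp only [hG]
      rw [(hS x hx).2 l (hD.1 hl)]
      linarith
  have hlow2 : (S.card : ℝ) * ((Λ.card.choose u : ℝ) * (9 / 20) ^ u) ^ 2 ≤
      ∑ x ∈ range T, W x ^ 2 := by
    calc (S.card : ℝ) * ((Λ.card.choose u : ℝ) * (9 / 20) ^ u) ^ 2
        = ∑ x ∈ S, ((Λ.card.choose u : ℝ) * (9 / 20) ^ u) ^ 2 := by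
          rw [sum_const, nsmul_eq_mul]
      _ ≤ ∑ x ∈ S, W x ^ 2 := sum_le_sum hlow
      _ ≤ ∑ x ∈ range T, W x ^ 2 := by
          apply sum_le_sum_of_subset_of_nonneg
          · intro x hx
            exact mem_range.2 (hS x hx).1
          · intro x _ _
            positivity
  have h1 := hlow2.trans hup
  set c := (Λ.card.choose u : ℝ) with hc
  have h2 : (S.card : ℝ) * (c * (9 / 20) ^ u) ^ 2 = ((S.card : ℝ) * (81 / 400) ^ u) * c ^ 2 := by
    rw [mul_pow, ← pow_mul, mul_comm u 2, pow_mul]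
    norm_num
    ring
  rw [h2] at h1
  have h3 : c * ((T : ℝ) * (1 / 4) ^ u) + c ^ 2 * (2 * (X : ℝ) ^ (2 * u)) =
      ((T : ℝ) * (1 / 4) ^ u / c + 2 * (X : ℝ) ^ (2 * u)) * c ^ 2 := by
    field_simp
  rw [h3] at h1
  have h4 : (S.card : ℝ) * (81 / 400) ^ u ≤ (T : ℝ) * (1 / 4) ^ u / c + 2 * (X : ℝ) ^ (2 * u) :=
    le_of_mul_le_mul_right h1 (by positivity)
  have h5 : (1 : ℝ) ≤ 5 ^ u * (81 / 400) ^ u := by
    rw [← mul_pow]
    exact one_le_pow₀ (by norm_num)
  calc (S.card : ℝ) ≤ (S.card : ℝ) * (5 ^ u * (81 / 400) ^ u) :=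
        le_mul_of_one_le_right (Nat.cast_nonneg _) h5
    _ = 5 ^ u * ((S.card : ℝ) * (81 / 400) ^ u) := by ring
    _ ≤ _ := mul_le_mul_of_nonneg_left h4 (by positivity)

end Pool.Agent.Lib.MP_509488_nt.Density
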