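import Pool.Agent.Lib.MP_509488_nt.Density.Local2
import Pool.Agent.Lib.MP_509488_nt.Density.LargeSieve

/-!
# The counting argument for a fixed set of primes
-/

namespace Pool.Agent.Lib.MP_509488_nt.Density

open Finset Pool.Agent.Lib.MP_d5700b_nt

open scoped Classical in
/-- The indicator of `x` with `A x ^ p + s ≡ C z ^ r mod l` for some `z`. -/
noncomputable def hh (r : ℕ) (A C s : ℤ) (p l x : ℕ) : ℝ :=
  if ∃ z : ZMod l, (A : ZMod l) * (x : ZMod l) ^ p + (s : ZMod l) = (C : ZMod l) * z ^ r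
  then 1 else 0

open scoped Classical in
theorem hh_sum_eq (r : ℕ) (A C s : ℤ) (p l : ℕ) (S : Finset ℕ) :
    ∑ x ∈ S, hh r A C s p l x = ((S.filter (fun x : ℕ => ∃ z : ZMod l, (A : ZMod l) *
      (x : ZMod l) ^ p + (s : ZMod l) = (C : ZMod l) * z ^ r)).card : ℝ) := by
  unfold hh
  rw [Finset.sum_boole]

theorem hh_nonneg (r : ℕ) (A C s : ℤ) (p l x : ℕ) : 0 ≤ hh r A C s p l x := by
  unfold hh; split_ifs <;> norm_num

theorem hh_per (r : ℕ) (A C s : ℤ) (p l : ℕ) : Per (hh r A C s p l) l := by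
  intro t
  unfold hh
  have : ((t % l : ℕ) : ZMod l) = (t : ZMod l) := by simp
  rw [this]

theorem hh_sum (r : ℕ) (hr : 2 ≤ r) (A C s : ℤ) (p l : ℕ) (hl : l.Prime) (hrl : r ∣ l - 1)
    (hA : ¬ (l : ℤ) ∣ A) (hC : ¬ (l : ℤ) ∣ C) (hs : ¬ (l : ℤ) ∣ s)
    (hd : 1600 * (Nat.gcd p (l - 1)) ^ 2 ≤ l) :
    ∑ x ∈ range l, hh r A C s p l x ≤ 11 / 20 * l := by
  classical
  have : Fact l.Prime := ⟨hl⟩
  have hA' : (A : ZMod l) ≠ 0 := fun h => hA ((ZMod.intCast_zmod_eq_zero_iff_dvd A l).1 h)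
  have hC' : (C : ZMod l) ≠ 0 := fun h => hC ((ZMod.intCast_zmod_eq_zero_iff_dvd C l).1 h)
  have hs' : (s : ZMod l) ≠ 0 := fun h => hs ((ZMod.intCast_zmod_eq_zero_iff_dvd s l).1 h)
  have h1 := local_count l r p hr hrl hd (A : ZMod l) (C : ZMod l) (s : ZMod l) hA' hC' hs'
  refine le_trans ?_ h1
  rw [hh_sum_eq]
  have h2 : ((range l).filter (fun x : ℕ => ∃ z : ZMod l, (A : ZMod l) * (x : ZMod l) ^ p +
      (s : ZMod l) = (C : ZMod l) * z ^ r)).card ≤ ((univ : Finset (ZMod l)).filter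
      (fun x => ∃ z, (A : ZMod l) * x ^ p + (s : ZMod l) = (C : ZMod l) * z ^ r)).card := by
    apply Finset.card_le_card_of_injOn (fun x : ℕ => (x : ZMod l))
    · intro x hx
      rw [mem_coe, mem_filter] at hx ⊢
      exact ⟨mem_univ _, hx.2⟩
    · intro x hx y hy hxy
      rw [mem_coe, mem_filter, mem_range] at hx hy
      simp only at hxy
      have h3 := (ZMod.natCast_eq_natCast_iff' x y l).1 hxy
      rwa [Nat.mod_eq_of_lt hx.1, Nat.mod_eq_of_lt hy.1] at h3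
  have h4 : (((range l).filter (fun x : ℕ => ∃ z : ZMod l, (A : ZMod l) * (x : ZMod l) ^ p +
      (s : ZMod l) = (C : ZMod l) * z ^ r)).card : ℝ) ≤ (((univ : Finset (ZMod l)).filter
      (fun x => ∃ z, (A : ZMod l) * x ^ p + (s : ZMod l) = (C : ZMod l) * z ^ r)).card : ℝ) := by
    exact_mod_cast h2
  refine le_trans (le_of_eq ?_) (le_trans h4 (le_of_eq ?_)) <;> congr!

/-- The count for one class. -/
theorem class_count (r : ℕ) (hr : 2 ≤ r) (A C s : ℤ) (p N X t u : ℕ) (Λ : Finset ℕ) (hX : 1 ≤ X)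
    (hΛ : ∀ l ∈ Λ, l.Prime ∧ l ≤ X ∧ r ∣ l - 1 ∧ ¬ (l : ℤ) ∣ A ∧ ¬ (l : ℤ) ∣ C ∧ ¬ (l : ℤ) ∣ s ∧
      1600 * (Nat.gcd p (l - 1)) ^ 2 ≤ l) (hu : u ≤ t) (ht : t ≤ Λ.card) (S : Finset ℕ)
    (hS : ∀ x ∈ S, x ≤ N ∧ ∀ l ∈ Λ, ∃ z : ZMod l, (A : ZMod l) * (x : ZMod l) ^ p +
      (s : ZMod l) = (C : ZMod l) * z ^ r) :
    (S.card : ℝ) ≤ 5 ^ u * (((N : ℝ) + 1) * (1 / 4) ^ u / (t.choose u : ℝ) +
      2 * (X : ℝ) ^ (2 * u)) := by
  classical
  obtain ⟨Λ', hsub, hcard⟩ := Finset.exists_subset_card_eq ht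
  have h := large_sieve Λ' (fun l hl => (hΛ l (hsub hl)).1) X hX (fun l hl => (hΛ l (hsub hl)).2.1)
    (hh r A C s p) (fun l _ => hh_per r A C s p l)
    (fun l x => by unfold hh; split_ifs; exacts [Or.inr rfl, Or.inl rfl])
    (fun l hl => by
      obtain ⟨h1, h2, h3, h4, h5, h6, h7⟩ := hΛ l (hsub hl)
      exact hh_sum r hr A C s p l h1 h3 h4 h5 h6 h7)
    u (by rw [hcard]; exact hu) (N + 1) S
    (fun x hx => ⟨Nat.lt_succ_of_le (hS x hx).1, fun l hl => by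
      unfold hh
      rw [if_pos ((hS x hx).2 l (hsub hl))]⟩)
  rw [hcard] at h
  push_cast at h
  exact h

theorem pow_eq_pow_zmod (l : ℕ) (hl : l.Prime) (x : ZMod l) (a b : ℕ) (ha : 1 ≤ a) (hb : 1 ≤ b)
    (h : a ≡ b [MOD (l - 1)]) : x ^ a = x ^ b := by
  have : Fact l.Prime := ⟨hl⟩
  by_cases hx : x = 0
  · rw [hx, zero_pow (by omega), zero_pow (by omega)]
  · have h1 : x ^ (l - 1) = 1 := ZMod.pow_card_sub_one_eq_one hx
    rw [pow_eq_pow_mod a h1, pow_eq_pow_mod b h1, h]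

theorem pow_eq_pow_zmod' (l : ℕ) (hl : l.Prime) (x : ZMod l) (hx : x ≠ 0) (a b : ℕ)
    (h : a ≡ b [MOD (l - 1)]) : x ^ a = x ^ b := by
  have : Fact l.Prime := ⟨hl⟩
  have h1 : x ^ (l - 1) = 1 := ZMod.pow_card_sub_one_eq_one hx
  rw [pow_eq_pow_mod a h1, pow_eq_pow_mod b h1, h]

open scoped Classical in
/-- The counting argument. -/
theorem core_count (r k : ℕ) (hr : 2 ≤ r) (N L X t u : ℕ) (hL : 1 ≤ L) (hX : 1 ≤ X) (hu : u ≤ t)
    (A C : ℤ) (y : Fin k → ℤ) (Λ : Finset ℕ) (P : ℕ → Prop)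
    (hΛ : ∀ l ∈ Λ, l.Prime ∧ l ≤ X ∧ r ∣ l - 1 ∧ l - 1 ∣ L ∧ ¬ (l : ℤ) ∣ A ∧ ¬ (l : ℤ) ∣ C ∧
      ∀ i, ¬ (l : ℤ) ∣ y i)
    (hP1 : ∀ p, P p → 1 ≤ p)
    (hP : ∀ p, P p → t ≤ (Λ.filter (fun l => 1600 * (Nat.gcd p (l - 1)) ^ 2 ≤ l)).card) :
    (((Icc 1 N).filter (fun x : ℕ => ∃ (p : ℕ) (e : Fin k → ℕ) (z : ℤ), P p ∧
      A * (x : ℤ) ^ p + ∏ i, y i ^ e i = C * z ^ r)).card : ℝ) ≤
      L ^ (k + 1) * (5 ^ u * (((N : ℝ) + 1) * (1 / 4) ^ u / (t.choose u : ℝ) +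
      2 * (X : ℝ) ^ (2 * u))) := by
  classical
  set Λp : ℕ → Finset ℕ := fun p => Λ.filter (fun l => 1600 * (Nat.gcd p (l - 1)) ^ 2 ≤ l) with hΛp
  set I : Finset (ℕ × (Fin k → ℕ)) := (range L) ×ˢ (Fintype.piFinset (fun _ => range L)) with hI
  set Bd : ℕ × (Fin k → ℕ) → Finset ℕ := fun c => (Icc 1 N).filter (fun x =>
    t ≤ (Λp (c.1 + L)).card ∧ ∀ l ∈ Λp (c.1 + L), ∃ z : ZMod l, (A : ZMod l) *
      (x : ZMod l) ^ (c.1 + L) + ((∏ i, y i ^ c.2 i : ℤ) : ZMod l) = (C : ZMod l) * z ^ r)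
    with hBd
  have hcover : (Icc 1 N).filter (fun x : ℕ => ∃ (p : ℕ) (e : Fin k → ℕ) (z : ℤ), P p ∧
      A * (x : ℤ) ^ p + ∏ i, y i ^ e i = C * z ^ r) ⊆ I.biUnion Bd := by
    intro x hx
    rw [mem_filter] at hx
    obtain ⟨hx1, p, e, z, hp, heq⟩ := hx
    rw [mem_biUnion]
    refine ⟨(p % L, fun i => e i % L), ?_, ?_⟩
    · rw [hI, mem_product]
      refine ⟨mem_range.2 (Nat.mod_lt _ (by omega)), ?_⟩
      rw [Fintype.mem_piFinset]
      intro i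
      exact mem_range.2 (Nat.mod_lt _ (by omega))
    · have hcong : ∀ l ∈ Λ, p % L + L ≡ p [MOD (l - 1)] := by
        intro l hl
        have h1 := (hΛ l hl).2.2.2.1
        have h2 : p % L + L ≡ p [MOD L] := by
          unfold Nat.ModEq
          rw [Nat.add_mod_right, Nat.mod_mod]
        exact h2.of_dvd h1
      have hsame : Λp (p % L + L) = Λp p := by
        rw [hΛp]
        apply Finset.filter_congr
        intro l hl
        have h1 : Nat.gcd (p % L + L) (l - 1) = Nat.gcd p (l - 1) := by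
          exact (hcong l hl).gcd_eq
        rw [h1]
      rw [hBd]
      simp only [mem_filter]
      rw [hsame]
      refine ⟨hx1, hP p hp, ?_⟩
      intro l hl
      have hlΛ : l ∈ Λ := (mem_filter.1 hl).1
      obtain ⟨hlp, hlX, hrl, hlL, hlA, hlC, hly⟩ := hΛ l hlΛ
      refine ⟨(z : ZMod l), ?_⟩
      have h1 : (x : ZMod l) ^ (p % L + L) = (x : ZMod l) ^ p :=
        pow_eq_pow_zmod l hlp _ _ _ (by omega) (hP1 p hp) (hcong l hlΛ)
      have h2 : ((∏ i, y i ^ (e i % L) : ℤ) : ZMod l) = ((∏ i, y i ^ e i : ℤ) : ZMod l) := by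
        push_cast
        apply Finset.prod_congr rfl
        intro i _
        have : Fact l.Prime := ⟨hlp⟩
        apply pow_eq_pow_zmod' l hlp
        · intro h
          exact hly i ((ZMod.intCast_zmod_eq_zero_iff_dvd _ _).1 h)
        · exact (Nat.mod_modEq (e i) L).of_dvd hlL
      rw [h1, h2]
      have h3 := congrArg (fun a : ℤ => (a : ZMod l)) heq
      push_cast at h3 ⊢
      exact h3
  have hcard : ∀ c ∈ I, ((Bd c).card : ℝ) ≤ 5 ^ u * (((N : ℝ) + 1) * (1 / 4) ^ u /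
      (t.choose u : ℝ) + 2 * (X : ℝ) ^ (2 * u)) := by
    intro c _
    by_cases ht : t ≤ (Λp (c.1 + L)).card
    · apply class_count r hr A C (∏ i, y i ^ c.2 i) (c.1 + L) N X t u (Λp (c.1 + L)) hX _ hu ht
      · intro x hx
        rw [hBd, mem_filter, mem_Icc] at hx
        exact ⟨hx.1.2, hx.2.2⟩
      · intro l hl
        obtain ⟨hl1, hl2⟩ := mem_filter.1 hl
        obtain ⟨hlp, hlX, hrl, hlL, hlA, hlC, hly⟩ := hΛ l hl1
        refine ⟨hlp, hlX, hrl, hlA, hlC, ?_, hl2⟩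
        intro h3
        have hlp' : Prime (l : ℤ) := Nat.prime_iff_prime_int.1 hlp
        obtain ⟨i, _, hi⟩ := (hlp'.dvd_finsetProd_iff _).1 h3
        exact hly i (hlp'.dvd_of_dvd_pow hi)
    · have h1 : Bd c = ∅ := by
        rw [hBd]
        simp only
        rw [Finset.filter_eq_empty_iff]
        intro x _ h
        exact ht h.1
      rw [h1, Finset.card_empty]
      push_cast
      positivity
  have h1 : (((Icc 1 N).filter (fun x : ℕ => ∃ (p : ℕ) (e : Fin k → ℕ) (z : ℤ), P p ∧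
      A * (x : ℤ) ^ p + ∏ i, y i ^ e i = C * z ^ r)).card : ℝ) ≤
      ∑ c ∈ I, ((Bd c).card : ℝ) := by
    exact_mod_cast (Finset.card_le_card hcover).trans Finset.card_biUnion_le
  refine h1.trans ?_
  refine (Finset.sum_le_sum hcard).trans (le_of_eq ?_)
  rw [Finset.sum_const, nsmul_eq_mul, hI, Finset.card_product, Fintype.card_piFinset]
  simp only [card_range, prod_const, card_univ, Fintype.card_fin]
  push_cast
  ring

end Pool.Agent.Lib.MP_509488_nt.Density
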