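import Pool.Agent.Lib.MP_509488_nt.Density.Main2

/-!
# The final count
-/

namespace Pool.Agent.Lib.MP_509488_nt.Density

open Finset

theorem exists_nat_root (s n : ℕ) (hs : 1 ≤ s) : ∃ Z : ℕ, Z ^ s ≤ n ∧ n < (Z + 1) ^ s := by
  classical
  have hne : ∃ z : ℕ, n < z ^ s := ⟨n + 1, by
    calc n < n + 1 := Nat.lt_succ_self n
      _ ≤ (n + 1) ^ s := Nat.le_self_pow (by omega) _⟩
  have h1 := Nat.find_spec hne
  have h0 : Nat.find hne ≠ 0 := by
    intro h
    rw [h, zero_pow (by omega)] at h1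
    omega
  obtain ⟨Z, hZ⟩ := Nat.exists_eq_succ_of_ne_zero h0
  refine ⟨Z, ?_, ?_⟩
  · by_contra hcon
    push Not at hcon
    exact Nat.find_min hne (by rw [hZ]; exact Nat.lt_succ_self Z) hcon
  · rw [hZ] at h1
    exact h1

open Filter Topology in
theorem ev_log (M : ℝ) : ∃ Z1 : ℕ, ∀ Z : ℕ, Z1 ≤ Z →
    M * (Real.log Z + 1) ≤ (Z : ℝ) ^ (1 / 4 : ℝ) := by
  have h1 := (isLittleO_log_rpow_atTop (show (0:ℝ) < 1/4 by norm_num)).tendsto_div_nhds_zero
  have h2 : Tendsto (fun x : ℝ => (x ^ (1 / 4 : ℝ))⁻¹) atTop (𝓝 0) :=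
    (tendsto_rpow_atTop (by norm_num)).inv_tendsto_atTop
  have h3 : Tendsto (fun x : ℝ => M * (Real.log x / x ^ (1 / 4 : ℝ)) + M * (x ^ (1 / 4 : ℝ))⁻¹)
      atTop (𝓝 (M * 0 + M * 0)) := (h1.const_mul M).add (h2.const_mul M)
  simp only [mul_zero, add_zero] at h3
  have h4 := (h3.comp tendsto_natCast_atTop_atTop (α := ℕ)).eventually
    (gt_mem_nhds (show (0 : ℝ) < 1 by norm_num))
  obtain ⟨Z1, hZ1⟩ := (h4.and (eventually_ge_atTop 1)).exists_forall_of_atTop
  refine ⟨Z1, fun Z hZ => ?_⟩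
  obtain ⟨h5, h6⟩ := hZ1 Z hZ
  simp only [Function.comp] at h5
  have hZpos : (0 : ℝ) < Z := by exact_mod_cast h6
  have h7 : 0 < (Z : ℝ) ^ (1 / 4 : ℝ) := Real.rpow_pos_of_pos hZpos _
  have h8 : M * (Real.log Z / (Z : ℝ) ^ (1 / 4 : ℝ)) + M * ((Z : ℝ) ^ (1 / 4 : ℝ))⁻¹ =
      M * (Real.log Z + 1) / (Z : ℝ) ^ (1 / 4 : ℝ) := by
    field_simp
  rw [h8, div_lt_one h7] at h5
  exact h5.le

/-- The purely real part of the final estimate. -/
theorem final_ineq (h k q lz lam Y X u cc κ : ℝ) (hh : 6 ≤ h) (hk : 0 ≤ k)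
    (hlz : 1 ≤ lz) (hq : 1000 * (k + 1) * h ^ 2 * (lz + 1) ≤ q) (hlogq : Real.log q = lz / 4)
    (hYq : Y * q ^ 2 ≤ lam) (hY : 1 ≤ Y) (hlogX : Real.log X = h * lz) (hX0 : 0 < X)
    (hu0 : 0 ≤ u) (hu1 : u ≤ lam / (4 * (h * lz))) (hu2 : lam / (4 * (h * lz)) - 1 ≤ u)
    (hκ : 5 * q ≤ 4 * κ) (hcc : κ ^ u ≤ cc) :
    Real.exp ((k + 1) * (2 * (Y * (h * lz)))) *
      (5 ^ u * ((Real.exp lam + 1) * (1 / 4) ^ u / cc + 2 * X ^ (2 * u))) ≤
      Real.exp (lam * (1 - 1 / (32 * h))) := by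
  have hq1 : 1000 ≤ q := by nlinarith [mul_nonneg hk (sq_nonneg h)]
  have hq0 : 0 < q := by linarith
  have hκ0 : 0 < κ := by linarith
  have hlam1 : q ≤ lam := by nlinarith
  have hlam0 : 0 < lam := by linarith
  have hlogY : (k + 1) * (2 * (Y * (h * lz))) ≤ lam / (128 * h) := by
    rw [le_div_iff₀ (by linarith)]
    have h1 : (k + 1) * (2 * (Y * (h * lz))) * (128 * h) = Y * (256 * (k + 1) * h ^ 2 * lz) := by
      ring
    rw [h1]
    have h2 : 256 * (k + 1) * h ^ 2 * lz ≤ q ^ 2 := by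
      have h3 : 256 * (k + 1) * h ^ 2 * lz ≤ 1000 * (k + 1) * h ^ 2 * (lz + 1) := by
        have : 0 ≤ (k + 1) * h ^ 2 := by positivity
        nlinarith
      nlinarith
    have h4 : Y * (256 * (k + 1) * h ^ 2 * lz) ≤ Y * q ^ 2 :=
      mul_le_mul_of_nonneg_left h2 (by linarith)
    linarith
  have hlog4 : Real.log 4 ≤ 2 := by
    have h1 : Real.log 4 = 2 * Real.log 2 := by
      rw [show (4 : ℝ) = 2 ^ 2 by norm_num, Real.log_pow]; norm_num
    have := Real.log_two_lt_d9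
    linarith
  have hlogZ4 : Real.log 4 + lz / 4 ≤ lam / (128 * h) := by
    rw [le_div_iff₀ (by linarith)]
    have h1 : (Real.log 4 + lz / 4) * (128 * h) ≤ (2 + lz / 4) * (128 * h) :=
      mul_le_mul_of_nonneg_right (by linarith) (by linarith)
    have h2 : (2 + lz / 4) * (128 * h) ≤ 1000 * (k + 1) * h ^ 2 * (lz + 1) := by
      have h3 : 1 * h ≤ (k + 1) * h ^ 2 := by nlinarith
      nlinarith
    linarith
  have hcc0 : 0 < cc := (Real.rpow_pos_of_pos hκ0 u).trans_le hcc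
  -- first term
  have hfirst : 5 ^ u * ((Real.exp lam + 1) * (1 / 4) ^ u / cc) ≤
      2 * Real.exp (lam - lam / (16 * h) + lz / 4) := by
    have h1 : Real.exp lam + 1 ≤ 2 * Real.exp lam := by
      have := Real.one_le_exp hlam0.le
      linarith
    have h2 : (5 : ℝ) ^ u * (1 / 4) ^ u / κ ^ u = (5 / (4 * κ)) ^ u := by
      rw [← Real.mul_rpow (by norm_num) (by norm_num), ← Real.div_rpow (by norm_num) hκ0.le]
      congr 1
      field_simp
    have h3 : (5 / (4 * κ)) ^ u ≤ (1 / q) ^ u := by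
      apply Real.rpow_le_rpow (by positivity) _ hu0
      rw [div_le_div_iff₀ (by positivity) hq0]
      linarith
    have h4 : (1 / q) ^ u ≤ Real.exp (-(lam / (16 * h)) + lz / 4) := by
      rw [Real.rpow_def_of_pos (by positivity), one_div, Real.log_inv, hlogq]
      apply Real.exp_le_exp.2
      have h5 : (lam / (4 * (h * lz)) - 1) * (lz / 4) ≤ u * (lz / 4) :=
        mul_le_mul_of_nonneg_right hu2 (by linarith)
      have h6 : (lam / (4 * (h * lz)) - 1) * (lz / 4) = lam / (16 * h) - lz / 4 := by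
        field_simp
        ring
      linarith
    have h5u : (0 : ℝ) ≤ 5 ^ u := by positivity
    calc 5 ^ u * ((Real.exp lam + 1) * (1 / 4) ^ u / cc)
        ≤ 5 ^ u * ((2 * Real.exp lam) * (1 / 4) ^ u / κ ^ u) := by
          apply mul_le_mul_of_nonneg_left _ h5u
          apply div_le_div₀ (by positivity) _ (Real.rpow_pos_of_pos hκ0 u) hcc
          exact mul_le_mul_of_nonneg_right h1 (by positivity)
      _ = 2 * Real.exp lam * (5 ^ u * (1 / 4) ^ u / κ ^ u) := by ring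
      _ ≤ 2 * Real.exp lam * Real.exp (-(lam / (16 * h)) + lz / 4) := by
          apply mul_le_mul_of_nonneg_left _ (by positivity)
          rw [h2]
          exact h3.trans h4
      _ = 2 * Real.exp (lam - lam / (16 * h) + lz / 4) := by
          rw [mul_assoc, ← Real.exp_add]
          congr 2
          ring
  -- second term
  have hsecond : 5 ^ u * (2 * X ^ (2 * u)) ≤ 2 * Real.exp (6 / 10 * lam) := by
    have h1 : (5 : ℝ) ^ u ≤ Real.exp (2 * u) := by
      rw [Real.rpow_def_of_pos (by norm_num)]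
      apply Real.exp_le_exp.2
      have h2 : Real.log 5 ≤ 2 := by
        rw [Real.log_le_iff_le_exp (by norm_num)]
        have h3 : Real.exp 2 = Real.exp 1 * Real.exp 1 := by rw [← Real.exp_add]; norm_num
        have h4 := Real.exp_one_gt_d9
        rw [h3]; nlinarith
      exact mul_le_mul_of_nonneg_right h2 hu0
    have h2 : X ^ (2 * u) = Real.exp (2 * u * (h * lz)) := by
      rw [Real.rpow_def_of_pos hX0, hlogX]
      congr 1
      ring
    have h3 : 2 * u * (h * lz) ≤ lam / 2 := by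
      have h4 : u * (4 * (h * lz)) ≤ lam := by
        rwa [le_div_iff₀ (by positivity)] at hu1
      linarith
    have h4 : 2 * u ≤ lam / 10 := by
      have h5 : u * (4 * (h * lz)) ≤ lam := by
        rwa [le_div_iff₀ (by positivity)] at hu1
      have h6 : (6 : ℝ) ≤ h * lz := by nlinarith
      nlinarith
    calc (5 : ℝ) ^ u * (2 * X ^ (2 * u)) = 2 * (5 ^ u * X ^ (2 * u)) := by ring
      _ ≤ 2 * (Real.exp (2 * u) * Real.exp (2 * u * (h * lz))) := by
          rw [h2]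
          apply mul_le_mul_of_nonneg_left _ (by norm_num)
          exact mul_le_mul_of_nonneg_right h1 (Real.exp_pos _).le
      _ ≤ 2 * Real.exp (6 / 10 * lam) := by
          rw [← Real.exp_add]
          apply mul_le_mul_of_nonneg_left _ (by norm_num)
          apply Real.exp_le_exp.2
          linarith
  -- assembly
  have hexp4 : ∀ a : ℝ, 2 * Real.exp a = 1 / 2 * Real.exp (a + Real.log 4) := by
    intro a
    rw [Real.exp_add, Real.exp_log (by norm_num)]
    ring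
  rw [mul_add]
  calc Real.exp ((k + 1) * (2 * (Y * (h * lz)))) *
        (5 ^ u * ((Real.exp lam + 1) * (1 / 4) ^ u / cc) + 5 ^ u * (2 * X ^ (2 * u)))
      ≤ Real.exp (lam / (128 * h)) * (2 * Real.exp (lam - lam / (16 * h) + lz / 4) +
          2 * Real.exp (6 / 10 * lam)) := by
        apply mul_le_mul (Real.exp_le_exp.2 hlogY) (add_le_add hfirst hsecond) (by positivity)
          (Real.exp_pos _).le
    _ = 1 / 2 * Real.exp (lam / (128 * h) + (lam - lam / (16 * h) + lz / 4 + Real.log 4)) +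
          1 / 2 * Real.exp (lam / (128 * h) + (6 / 10 * lam + Real.log 4)) := by
        rw [hexp4, hexp4, Real.exp_add (lam / (128 * h)), Real.exp_add (lam / (128 * h))]
        ring
    _ ≤ 1 / 2 * Real.exp (lam * (1 - 1 / (32 * h))) +
          1 / 2 * Real.exp (lam * (1 - 1 / (32 * h))) := by
        have e1 : lam / (16 * h) = 8 * (lam / (128 * h)) := by field_simp; norm_num
        have e2 : lam * (1 - 1 / (32 * h)) = lam - 4 * (lam / (128 * h)) := by
          field_simp; ring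
        have e3 : 0 < lam / (128 * h) := by positivity
        have e4 : lam / (128 * h) ≤ lam / 768 := by
          apply div_le_div_of_nonneg_left hlam0.le (by norm_num)
          linarith
        apply add_le_add
        · apply mul_le_mul_of_nonneg_left _ (by norm_num)
          apply Real.exp_le_exp.2
          linarith
        · apply mul_le_mul_of_nonneg_left _ (by norm_num)
          apply Real.exp_le_exp.2
          linarith
    _ = Real.exp (lam * (1 - 1 / (32 * h))) := by ring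

/-- few bad primes -/
theorem bad_ineq (c h lz q X : ℝ) (hc : 0 < c) (hh : 6 ≤ h) (hlz : 1 ≤ lz)
    (hq : 160 / c * h * lz ≤ q) (hlogq : Real.log q = lz / 4) (hq0 : 0 < q)
    (hlogX : Real.log X = h * lz) (hX0 : 0 < X) :
    Real.exp (h * lz / 5) * (40 * X * Real.exp (-(h * lz / 4))) ≤ c / 4 * (X / (h * lz)) := by
  have h1 : X = Real.exp (h * lz) := by rw [← hlogX, Real.exp_log hX0]
  have h2 : Real.exp (h * lz / 5) * (40 * X * Real.exp (-(h * lz / 4))) =
      40 * X * Real.exp (-(h * lz / 20)) := by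
    have h3 : Real.exp (h * lz / 5) * Real.exp (-(h * lz / 4)) = Real.exp (-(h * lz / 20)) := by
      rw [← Real.exp_add]
      congr 1
      ring
    calc Real.exp (h * lz / 5) * (40 * X * Real.exp (-(h * lz / 4))) =
        40 * X * (Real.exp (h * lz / 5) * Real.exp (-(h * lz / 4))) := by ring
      _ = _ := by rw [h3]
  rw [h2, Real.exp_neg]
  have h4 : q ≤ Real.exp (h * lz / 20) := by
    rw [← Real.exp_log hq0, hlogq]
    apply Real.exp_le_exp.2
    nlinarith
  have h5 : 160 / c * h * lz ≤ Real.exp (h * lz / 20) := hq.trans h4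
  have h6 : 0 < h * lz := by positivity
  rw [← div_eq_mul_inv, div_le_iff₀ (Real.exp_pos _)]
  have h7 : c / 4 * (X / (h * lz)) * (160 / c * h * lz) = 40 * X := by
    field_simp
    norm_num
  rw [← h7]
  exact mul_le_mul_of_nonneg_left h5 (by positivity)

open scoped Classical in
/-- The quantitative theorem. -/
theorem main_count (r : ℕ) (hr : 2 ≤ r) : ∃ η : ℝ, 0 < η ∧ ∀ k B : ℕ, ∃ N₀ : ℕ, ∀ N : ℕ, N₀ ≤ N →
    ∀ (A C : ℤ) (y : Fin k → ℤ), A ≠ 0 → C ≠ 0 → (∀ i, y i ≠ 0) →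
      |A * C * ∏ i, y i| ≤ (N : ℤ) ^ B →
      (((Icc 1 N).filter (fun x : ℕ => ∃ (p : ℕ) (e : Fin k → ℕ) (z : ℤ),
        (1 ≤ p ∧ (p.divisors.card : ℝ) ^ 5 ≤ Real.log N) ∧
          A * (x : ℤ) ^ p + ∏ i, y i ^ e i = C * z ^ r)).card : ℝ) ≤
        (N : ℝ) ^ (1 - η) := by
  obtain ⟨c, hc, h, hh6, Z0, hmany⟩ := many_smooth r (by omega)
  have hhr : (6 : ℝ) ≤ h := by exact_mod_cast hh6
  refine ⟨1 / (32 * h), by positivity, fun k B => ?_⟩
  have hk0 : (0 : ℝ) ≤ k := Nat.cast_nonneg _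
  have hB0 : (0 : ℝ) ≤ B := Nat.cast_nonneg _
  set M : ℝ := 1000 * ((k : ℝ) + 1) * (h : ℝ) ^ 2 * (B + 1) * (1 + 1 / c) with hM
  obtain ⟨Z1, hZ1⟩ := ev_log M
  set s := 2 * h - 1 with hs
  obtain ⟨Zm, hZm⟩ : ∃ Zm : ℕ, Zm = max (max Z0 Z1) (max (2 * s) 4) := ⟨_, rfl⟩
  refine ⟨⌈Real.exp (((Zm : ℝ) + 1) ^ s)⌉₊, ?_⟩
  intro N hN A C y hA hC hy hQ
  have hNr : Real.exp (((Zm : ℝ) + 1) ^ s) ≤ N := (Nat.le_ceil _).trans (by exact_mod_cast hN)
  have hNpos : (0 : ℝ) < N := (Real.exp_pos _).trans_le hNr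
  set lam := Real.log N with hlam
  have hZm1 : (1 : ℝ) ≤ ((Zm : ℝ) + 1) ^ s := one_le_pow₀ (by
    have : (0 : ℝ) ≤ Zm := Nat.cast_nonneg _
    linarith)
  have hlam1 : ((Zm : ℝ) + 1) ^ s ≤ lam := by
    rw [hlam, Real.le_log_iff_exp_le hNpos]; exact hNr
  have hlam11 : 1 ≤ lam := hZm1.trans hlam1
  have hlampos : 0 < lam := by linarith
  have hexplam : Real.exp lam = N := Real.exp_log hNpos
  obtain ⟨Z, hZle, hZlt⟩ := exists_nat_root s ⌊lam ^ 2⌋₊ (by omega)
  have hZler : ((Z : ℝ)) ^ s ≤ lam ^ 2 := by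
    have h1 : ((Z ^ s : ℕ) : ℝ) ≤ (⌊lam ^ 2⌋₊ : ℝ) := by exact_mod_cast hZle
    have h2 := Nat.floor_le (show 0 ≤ lam ^ 2 by positivity)
    push_cast at h1
    linarith
  have hZltr : lam ^ 2 < ((Z : ℝ) + 1) ^ s := by
    have h1 : ((⌊lam ^ 2⌋₊ + 1 : ℕ) : ℝ) ≤ (((Z + 1) ^ s : ℕ) : ℝ) := by exact_mod_cast hZlt
    have h2 := Nat.lt_floor_add_one (lam ^ 2)
    push_cast at h1
    linarith
  have hZZm : Zm ≤ Z := by
    by_contra hcon
    push Not at hcon
    have h1 : ((Z : ℝ) + 1) ^ s ≤ ((Zm : ℝ) + 1) ^ s := by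
      apply pow_le_pow_left₀ (by positivity)
      have : (Z : ℝ) ≤ Zm := by exact_mod_cast hcon.le
      linarith
    have h2 : lam ≤ lam ^ 2 := le_self_pow₀ hlam11 (by norm_num)
    linarith
  have hZ0 : Z0 ≤ Z := le_trans (by rw [hZm]; exact le_trans (le_max_left _ _) (le_max_left _ _)) hZZm
  have hZZ1 : Z1 ≤ Z := le_trans (by rw [hZm]; exact le_trans (le_max_right _ _) (le_max_left _ _)) hZZm
  have hZs : 2 * s ≤ Z := le_trans (by rw [hZm]; exact le_trans (le_max_left _ _) (le_max_right _ _)) hZZm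
  have hZ4 : 4 ≤ Z := le_trans (by rw [hZm]; exact le_trans (le_max_right _ _) (le_max_right _ _)) hZZm
  have hZr : (4 : ℝ) ≤ Z := by exact_mod_cast hZ4
  have hZpos : (0 : ℝ) < Z := by linarith
  set lz := Real.log Z with hlz
  have hlz1 : 1 ≤ lz := by
    rw [hlz, Real.le_log_iff_exp_le hZpos]
    have := Real.exp_one_lt_d9
    linarith
  set q := (Z : ℝ) ^ (1 / 4 : ℝ) with hq
  have hq0 : 0 < q := Real.rpow_pos_of_pos hZpos _
  have hlogq : Real.log q = lz / 4 := by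
    rw [hq, Real.log_rpow hZpos]; ring
  have hq4 : q ^ 4 = Z := by
    rw [hq, ← Real.rpow_natCast, ← Real.rpow_mul hZpos.le]
    norm_num
  have hMq : M * (lz + 1) ≤ q := hZ1 Z hZZ1
  have hc1 : 0 < 1 / c := by positivity
  have hW1 : (h : ℝ) ≤ ((k : ℝ) + 1) * (h : ℝ) ^ 2 := by
    have h3 : (h : ℝ) ≤ (h : ℝ) ^ 2 := le_self_pow₀ (by linarith) (by norm_num)
    have h4 : (h : ℝ) ^ 2 ≤ ((k : ℝ) + 1) * (h : ℝ) ^ 2 :=
      le_mul_of_one_le_left (by positivity) (by linarith)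
    linarith
  have hB1 : (1 : ℝ) ≤ (B : ℝ) + 1 := by linarith
  have hV1 : (1 : ℝ) ≤ ((B : ℝ) + 1) * (1 + 1 / c) :=
    one_le_mul_of_one_le_of_one_le hB1 (by linarith)
  have hM1 : 1000 * ((k : ℝ) + 1) * (h : ℝ) ^ 2 ≤ M := by
    rw [hM]
    have h2 : 0 ≤ 1000 * ((k : ℝ) + 1) * (h : ℝ) ^ 2 := by positivity
    calc 1000 * ((k : ℝ) + 1) * (h : ℝ) ^ 2 ≤
        1000 * ((k : ℝ) + 1) * (h : ℝ) ^ 2 * (((B : ℝ) + 1) * (1 + 1 / c)) :=
        le_mul_of_one_le_right h2 hV1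
      _ = _ := by ring
  have hM2 : 1000 * h * (1 / c) ≤ M := by
    rw [hM]
    calc 1000 * h * (1 / c) = 1000 * ((h : ℝ) * (1 / c)) := by ring
      _ ≤ 1000 * ((((k : ℝ) + 1) * (h : ℝ) ^ 2) * (((B : ℝ) + 1) * (1 + 1 / c))) := by
        apply mul_le_mul_of_nonneg_left _ (by norm_num)
        apply mul_le_mul hW1 _ hc1.le (by positivity)
        have h1 : (1 : ℝ) + 1 / c ≤ ((B : ℝ) + 1) * (1 + 1 / c) :=
          le_mul_of_one_le_left (by positivity) hB1
        linarith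
      _ = _ := by ring
  have hM3 : 1000 * ((B : ℝ) + 1) * (1 / c) ≤ M := by
    rw [hM]
    calc 1000 * ((B : ℝ) + 1) * (1 / c) = 1000 * (1 * (((B : ℝ) + 1) * (1 / c))) := by ring
      _ ≤ 1000 * ((((k : ℝ) + 1) * (h : ℝ) ^ 2) * (((B : ℝ) + 1) * (1 + 1 / c))) := by
        apply mul_le_mul_of_nonneg_left _ (by norm_num)
        apply mul_le_mul (by linarith) _ (by positivity) (by positivity)
        exact mul_le_mul_of_nonneg_left (by linarith) (by linarith)
      _ = _ := by ring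
  have hM1000 : 1000 ≤ M := by linarith
  have hMpos : 0 < M := by linarith
  have hMqlz : M * lz ≤ q :=
    (mul_le_mul_of_nonneg_left (by linarith) hMpos.le).trans hMq
  have hMle : M ≤ q := (le_mul_of_one_le_right hMpos.le (by linarith)).trans hMq
  have hq1000 : 1000 ≤ q := by linarith
  have hq1 : 1 ≤ q := by linarith
  -- scales
  obtain ⟨X, hX⟩ : ∃ X : ℕ, X = Z ^ h := ⟨_, rfl⟩
  obtain ⟨Y, hY⟩ : ∃ Y : ℕ, Y = Z ^ (h - 1) := ⟨_, rfl⟩
  have hXr : (X : ℝ) = (Z : ℝ) ^ h := by rw [hX]; push_cast; rfl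
  have hYr : (Y : ℝ) = (Z : ℝ) ^ (h - 1) := by rw [hY]; push_cast; rfl
  have hX1 : 1 ≤ X := by rw [hX]; exact Nat.one_le_pow _ _ (by omega)
  have hY1 : 1 ≤ Y := by rw [hY]; exact Nat.one_le_pow _ _ (by omega)
  have hYX : Y ≤ X := by rw [hX, hY]; exact Nat.pow_le_pow_right (by omega) (by omega)
  have hXpos : (0 : ℝ) < X := by exact_mod_cast hX1
  have hlogX : Real.log X = h * lz := by rw [hXr, Real.log_pow]
  have hLX : (6 : ℝ) ≤ h * lz := by
    calc (6 : ℝ) = 6 * 1 := by norm_num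
      _ ≤ h * lz := mul_le_mul hhr hlz1 (by norm_num) (by linarith)
  have hYq : (Y : ℝ) * q ^ 2 ≤ lam := by
    have h1 : ((Y : ℝ) * q ^ 2) ^ 2 ≤ lam ^ 2 := by
      refine le_trans (le_of_eq ?_) hZler
      rw [mul_pow, ← pow_mul, show 2 * 2 = 4 by norm_num, hq4, hYr, ← pow_mul]
      rw [← pow_succ]
      congr 1
      omega
    exact le_of_pow_le_pow_left₀ (by norm_num) hlampos.le h1
  have hZhalf : lam ^ 2 / 2 ≤ (Z : ℝ) ^ s := by
    have h1 : ((Z : ℝ) + 1) ^ s ≤ 2 * (Z : ℝ) ^ s := by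
      have h2 := one_add_mul_le_pow (show (-2 : ℝ) ≤ -(1 / ((Z : ℝ) + 1)) by
        have : 1 / ((Z : ℝ) + 1) ≤ 1 := by
          rw [div_le_one (by positivity)]; linarith
        linarith) s
      have h3 : (s : ℝ) * (1 / ((Z : ℝ) + 1)) ≤ 1 / 2 := by
        rw [mul_one_div, div_le_div_iff₀ (by positivity) (by norm_num)]
        have : (2 * (s : ℝ)) ≤ Z := by exact_mod_cast hZs
        linarith
      have h4 : (1 : ℝ) + -(1 / ((Z : ℝ) + 1)) = (Z : ℝ) / (Z + 1) := by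
        field_simp
        ring
      rw [h4, div_pow, le_div_iff₀ (by positivity)] at h2
      have h5 : 0 < ((Z : ℝ) + 1) ^ s := by positivity
      have h6 : (1 : ℝ) / 2 ≤ 1 + (s : ℝ) * -(1 / ((Z : ℝ) + 1)) := by linarith
      have h7 := mul_le_mul_of_nonneg_right h6 h5.le
      linarith
    linarith
  have hXge : lam * q ^ 2 / 2 ≤ X := by
    have h1 : (lam * q ^ 2 / 2) ^ 2 ≤ (X : ℝ) ^ 2 := by
      have h2 : (X : ℝ) ^ 2 = Z * (Z : ℝ) ^ s := by
        rw [hXr, ← pow_mul, ← pow_succ']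
        congr 1
        omega
      have h3 : (lam * q ^ 2 / 2) ^ 2 = lam ^ 2 / 2 * Z / 2 := by
        rw [← hq4]; ring
      rw [h2, h3]
      have h4 : 0 ≤ lam ^ 2 / 2 * Z := by positivity
      have h5 := mul_le_mul_of_nonneg_left hZhalf hZpos.le
      linarith
    exact le_of_pow_le_pow_left₀ (by norm_num) hXpos.le h1
  -- the parameters u and t
  obtain ⟨u, hu⟩ : ∃ u : ℕ, u = ⌊lam / (4 * (h * lz))⌋₊ := ⟨_, rfl⟩
  have hu1 : (u : ℝ) ≤ lam / (4 * (h * lz)) := by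
    rw [hu]; exact Nat.floor_le (by positivity)
  have hu2 : lam / (4 * (h * lz)) - 1 ≤ u := by
    have := Nat.lt_floor_add_one (lam / (4 * (h * lz)))
    rw [← hu] at this
    linarith
  obtain ⟨t, ht⟩ : ∃ t : ℕ, t = ⌊c / 2 * (X / (h * lz))⌋₊ := ⟨_, rfl⟩
  have ht1 : (t : ℝ) ≤ c / 2 * (X / (h * lz)) := by
    rw [ht]; exact Nat.floor_le (by positivity)
  have hcq : 160 / c * h * lz ≤ q := by
    have h1 : 160 / c * h * lz = 160 * h * (1 / c) * lz := by ring
    rw [h1]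
    have h2 : 160 * h * (1 / c) ≤ M := by
      have : 0 ≤ (h : ℝ) * (1 / c) := by positivity
      linarith
    exact (mul_le_mul_of_nonneg_right h2 (by linarith)).trans hMqlz
  have hXq : q ≤ X := by
    have h1 : q ^ 1 ≤ q ^ 4 := pow_le_pow_right₀ hq1 (by norm_num)
    rw [pow_one, hq4] at h1
    have h2 : (Z : ℝ) ≤ X := by
      rw [hX]
      exact_mod_cast Nat.le_self_pow (by omega) Z
    linarith
  have ht2 : c / 4 * (X / (h * lz)) ≤ t := by
    have h1 := Nat.lt_floor_add_one (c / 2 * (X / (h * lz)))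
    rw [← ht] at h1
    have h2 : 1 ≤ c / 4 * (X / (h * lz)) := by
      have h3 : 160 / c * h * lz ≤ X := hcq.trans hXq
      have h4 : c / 4 * ((160 / c * h * lz) / (h * lz)) = 40 := by
        field_simp
        norm_num
      have h5 : c / 4 * ((160 / c * h * lz) / (h * lz)) ≤ c / 4 * (X / (h * lz)) := by
        apply mul_le_mul_of_nonneg_left _ (by positivity)
        exact div_le_div_of_nonneg_right h3 (by positivity)
      linarith
    linarith
  set κ : ℝ := c * q ^ 2 / 4 with hκ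
  have hcq5 : 16 * ((B : ℝ) + 1) ≤ c * q := by
    have h1 : 1000 * ((B : ℝ) + 1) * (1 / c) ≤ q := hM3.trans hMle
    have h2 : c * (1000 * ((B : ℝ) + 1) * (1 / c)) ≤ c * q := mul_le_mul_of_nonneg_left h1 hc.le
    have h3 : c * (1000 * ((B : ℝ) + 1) * (1 / c)) = 1000 * ((B : ℝ) + 1) := by
      field_simp
    linarith
  have hcq2 : 16 * ((B : ℝ) + 1) * q ≤ c * q ^ 2 := by
    have h1 := mul_le_mul_of_nonneg_right hcq5 hq0.le
    calc 16 * ((B : ℝ) + 1) * q ≤ c * q * q := h1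
      _ = c * q ^ 2 := by ring
  have hBq : ((B : ℝ) + 1) * 1 ≤ ((B : ℝ) + 1) * q := mul_le_mul_of_nonneg_left hq1 (by linarith)
  have hqB : 1 * q ≤ ((B : ℝ) + 1) * q := mul_le_mul_of_nonneg_right hB1 hq0.le
  have hκq : 5 * q ≤ 4 * κ := by
    rw [hκ]
    linarith
  have hκ1 : 1 ≤ κ := by linarith
  have hut2 : 2 * κ * u ≤ t := by
    refine le_trans ?_ ht2
    have h1 : 2 * κ * u ≤ 2 * κ * (lam / (4 * (h * lz))) :=
      mul_le_mul_of_nonneg_left hu1 (by linarith)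
    have h2 : 2 * κ * (lam / (4 * (h * lz))) = c / 4 * ((lam * q ^ 2 / 2) / (h * lz)) := by
      rw [hκ]
      field_simp
      norm_num
    rw [h2] at h1
    refine h1.trans ?_
    apply mul_le_mul_of_nonneg_left _ (by positivity)
    exact div_le_div_of_nonneg_right hXge (by positivity)
  have hut : u ≤ t := by
    have : (u : ℝ) ≤ t := by
      have h1 : (0 : ℝ) ≤ u := Nat.cast_nonneg _
      have h2 : (u : ℝ) ≤ 2 * κ * u := le_mul_of_one_le_left h1 (by linarith)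
      linarith
    exact_mod_cast this
  have hchoose := choose_lower t u κ hκ1 hut2
  -- primes dividing Q
  set Q : ℤ := A * C * ∏ i, y i with hQdef
  have hQ0 : Q ≠ 0 := mul_ne_zero (mul_ne_zero hA hC) (Finset.prod_ne_zero_iff.2 (fun i _ => hy i))
  have hfew := few_divide r h Z Q hQ0 (by omega) ((N : ℝ) ^ B) (by exact_mod_cast hQ)
  rw [Real.log_pow, ← hlam, ← hX, hlogX] at hfew
  have hmanyZ := hmany Z hZ0
  rw [← hX, hlogX] at hmanyZ
  set SP := smoothPrimes r h Z with hSP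
  have hSPprop : ∀ l ∈ SP, l.Prime ∧ r ∣ l - 1 ∧ l - 1 ∣ (Y.factorial) ^ 2 ∧ l ≤ X ∧ X < l ^ 2 := by
    intro l hl
    rw [hSP] at hl
    unfold smoothPrimes at hl
    rw [mem_filter, mem_Icc, ← hX, ← hY] at hl
    obtain ⟨⟨h2, h3⟩, h4, h5, h6, h7⟩ := hl
    exact ⟨h4, h5, h7, h3, h6⟩
  set Λ := SP.filter (fun l : ℕ => ¬ (l : ℤ) ∣ Q) with hΛ
  have hΛcard : 3 / 4 * c * (X / (h * lz)) ≤ Λ.card := by
    have h1 := Finset.card_filter_add_card_filter_not (s := SP) (fun l : ℕ => (l : ℤ) ∣ Q)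
    have h2 : ((SP.filter (fun l : ℕ => (l : ℤ) ∣ Q)).card : ℝ) + (Λ.card : ℝ) = (SP.card : ℝ) := by
      exact_mod_cast h1
    have h3 : ((SP.filter (fun l : ℕ => (l : ℤ) ∣ Q)).card : ℝ) ≤ 1 / 4 * c * (X / (h * lz)) := by
      rw [← mul_div_assoc, le_div_iff₀ (by positivity)]
      refine hfew.trans ?_
      have h4 : 8 * (B : ℝ) * lam ≤ c * X := by
        have h5 : c * (lam * q ^ 2 / 2) ≤ c * X := mul_le_mul_of_nonneg_left hXge hc.le
        have h6 : 16 * (B : ℝ) ≤ c * q ^ 2 := by linarith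
        have h7 : 16 * (B : ℝ) * lam ≤ c * q ^ 2 * lam := mul_le_mul_of_nonneg_right h6 hlampos.le
        linarith
      linarith
    linarith
  have hcore := core_count r k hr N ((Y.factorial) ^ 2) X t u
    (Nat.one_le_iff_ne_zero.2 (pow_ne_zero _ (Nat.factorial_ne_zero _))) hX1 hut A C y Λ
    (fun p => 1 ≤ p ∧ (p.divisors.card : ℝ) ^ 5 ≤ Real.log N)
    (by
      intro l hl
      obtain ⟨h0, h6⟩ := mem_filter.1 hl
      obtain ⟨h1, h2, h3, h4, h5⟩ := hSPprop l h0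
      refine ⟨h1, h4, h2, h3, ?_, ?_, ?_⟩
      · intro h
        exact h6 (Dvd.dvd.mul_right (Dvd.dvd.mul_right h _) _)
      · intro h
        exact h6 (Dvd.dvd.mul_right (Dvd.dvd.mul_left h _) _)
      · intro i h
        exact h6 (Dvd.dvd.mul_left (h.trans (Finset.dvd_prod_of_mem y (mem_univ i))) _))
    (fun p hp => hp.1)
    (by
      intro p hp
      have h1 := Finset.card_filter_add_card_filter_not (s := Λ)
        (fun l : ℕ => 1600 * (Nat.gcd p (l - 1)) ^ 2 ≤ l)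
      have h2 := few_bad X p hp.1 Λ (fun l hl =>
        ⟨(hSPprop l (mem_filter.1 hl).1).1, (hSPprop l (mem_filter.1 hl).1).2.2.2.1,
          (hSPprop l (mem_filter.1 hl).1).2.2.2.2⟩) (h * lz) (by
            rw [← hlogX, Real.exp_log hXpos])
      have hlamX : lam ≤ X := by
        have h4 : lam * 1 ≤ lam * (q ^ 2 / 2) := by
          apply mul_le_mul_of_nonneg_left _ hlampos.le
          have h5 : q ≤ q ^ 2 := le_self_pow₀ hq1 (by norm_num)
          linarith
        linarith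
      have h3 : (p.divisors.card : ℝ) ≤ Real.exp (h * lz / 5) := by
        have h4 : (p.divisors.card : ℝ) ^ 5 ≤ (Real.exp (h * lz / 5)) ^ 5 := by
          rw [← Real.exp_nat_mul]
          have : ((5 : ℕ) : ℝ) * (h * lz / 5) = h * lz := by push_cast; ring
          rw [this, ← hlogX, Real.exp_log hXpos]
          exact hp.2.trans hlamX
        exact le_of_pow_le_pow_left₀ (by norm_num) (Real.exp_pos _).le h4
      have h5 := bad_ineq c h lz q X hc hhr hlz1 hcq hlogq hq0 hlogX hXpos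
      have h6 : ((Λ.filter (fun l => ¬ (1600 * (Nat.gcd p (l - 1)) ^ 2 ≤ l))).card : ℝ) ≤
          c / 4 * (X / (h * lz)) := by
        refine h2.trans (le_trans ?_ h5)
        exact mul_le_mul_of_nonneg_right h3 (by positivity)
      have h7 : ((Λ.filter (fun l => 1600 * (Nat.gcd p (l - 1)) ^ 2 ≤ l)).card : ℝ) +
          ((Λ.filter (fun l => ¬ (1600 * (Nat.gcd p (l - 1)) ^ 2 ≤ l))).card : ℝ) =
          (Λ.card : ℝ) := by exact_mod_cast h1
      have h8 : (t : ℝ) ≤ ((Λ.filter (fun l => 1600 * (Nat.gcd p (l - 1)) ^ 2 ≤ l)).card : ℝ) := by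
        linarith
      exact_mod_cast h8)
  refine hcore.trans ?_
  -- the final inequality
  have hfin := final_ineq h k q lz lam Y X u (t.choose u) κ hhr hk0 hlz1
    ((mul_le_mul_of_nonneg_right hM1 (by linarith)).trans hMq) hlogq hYq
    (by exact_mod_cast hY1) hlogX hXpos (Nat.cast_nonneg _) hu1 hu2 hκq
    (by rw [Real.rpow_natCast]; exact hchoose)
  have hLpos : (0 : ℝ) < (((Y.factorial) ^ 2 : ℕ) : ℝ) := by
    have : 0 < (Y.factorial) ^ 2 := Nat.pow_pos (Nat.factorial_pos _)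
    exact_mod_cast this
  have hLexp : ((((Y.factorial) ^ 2 : ℕ)) : ℝ) ^ (k + 1) ≤
      Real.exp (((k : ℝ) + 1) * (2 * (Y * (h * lz)))) := by
    rw [← Real.exp_log (show (0 : ℝ) < ((((Y.factorial) ^ 2 : ℕ)) : ℝ) ^ (k + 1) by positivity),
      Real.log_pow]
    apply Real.exp_le_exp.2
    have h1 := log_factorial_sq Y X hYX
    rw [hlogX] at h1
    push_cast at h1 ⊢
    exact mul_le_mul_of_nonneg_left h1 (by linarith)
  have hrhs : (N : ℝ) ^ (1 - 1 / (32 * (h : ℝ))) = Real.exp (lam * (1 - 1 / (32 * h))) := by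
    rw [Real.rpow_def_of_pos hNpos]
  rw [hrhs]
  refine le_trans ?_ hfin
  rw [hexplam]
  have h9 : (X : ℝ) ^ (2 * (u : ℝ)) = (X : ℝ) ^ (2 * u) := by
    rw [← Real.rpow_natCast]
    push_cast
    rfl
  rw [h9, Real.rpow_natCast, Real.rpow_natCast]
  push_cast at hLexp ⊢
  apply mul_le_mul_of_nonneg_right hLexp
  positivity

end Pool.Agent.Lib.MP_509488_nt.Density
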