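import Mathlib

/-!
# A second moment bound for power residues in finite fields

Let `K` be a finite field with `q` elements, `R` a subgroup of `Kˣ`, `A ≠ 0`. For `c ∈ K` and
`v ∈ Kˣ` let `b c v` be the number of `x ∈ Kˣ` with `A x ^ p + c ∈ v R`. We show that
`|b c v - |R| (q-1)/q| ≤ d √(q-1)` for `c ≠ 0`, where `d` bounds the number of solutions of
`x ^ p = u`.
-/

namespace Pool.Agent.Lib.MP_509488_nt.Density

open Finset

variable {K : Type*} [Field K] [Fintype K] [DecidableEq K]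

open scoped Classical in
/-- The indicator of `A x ^ p + c ∈ v R`. -/
noncomputable def ind (A : Kˣ) (p : ℕ) (R : Subgroup Kˣ) (c : K) (v x : Kˣ) : ℝ :=
  if ∃ ρ ∈ R, (A : K) * (x : K) ^ p + c = v * ρ then 1 else 0

/-- The number of `x` with `A x ^ p + c ∈ v R`. -/
noncomputable def bb (A : Kˣ) (p : ℕ) (R : Subgroup Kˣ) (c : K) (v : Kˣ) : ℝ :=
  ∑ x : Kˣ, ind A p R c v x

open scoped Classical in
theorem bb_eq_card (A : Kˣ) (p : ℕ) (R : Subgroup Kˣ) (c : K) (v : Kˣ) :
    bb A p R c v = (((univ : Finset Kˣ).filter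
      (fun x : Kˣ => ∃ ρ ∈ R, (A : K) * (x : K) ^ p + c = v * ρ)).card : ℝ) := by
  unfold bb ind
  rw [Finset.sum_boole]

theorem sum_ind (A : Kˣ) (p : ℕ) (R : Subgroup Kˣ) (x : Kˣ) :
    ∑ c : K, ∑ v : Kˣ, ind A p R c v x = (Nat.card R : ℝ) * (Fintype.card K - 1 : ℝ) := by
  classical
  have h1 : ∑ c : K, ∑ v : Kˣ, ind A p R c v x =
      ((univ : Finset (K × Kˣ)).filter
        (fun cv => ∃ ρ ∈ R, (A : K) * (x : K) ^ p + cv.1 = cv.2 * ρ)).card := by
    rw [← Fintype.sum_prod_type' (f := fun c v => ind A p R c v x)]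
    unfold ind
    rw [Finset.sum_ite, Finset.sum_const_zero, add_zero, Finset.sum_const, nsmul_eq_mul, mul_one]
  rw [h1]
  have h2 : ((univ : Finset (K × Kˣ)).filter
        (fun cv => ∃ ρ ∈ R, (A : K) * (x : K) ^ p + cv.1 = cv.2 * ρ)) =
      (univ : Finset (Kˣ × R)).image
        (fun vr => ((vr.1 : K) * ((vr.2 : Kˣ) : K) - (A : K) * (x : K) ^ p, vr.1)) := by
    ext ⟨c, v⟩
    simp only [mem_filter, mem_univ, true_and, mem_image, Prod.exists, Prod.mk.injEq]
    constructor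
    · rintro ⟨ρ, hρ, h⟩
      refine ⟨v, ⟨ρ, hρ⟩, ?_, rfl⟩
      simp only
      linear_combination -h
    · rintro ⟨v', ρ, h, rfl⟩
      refine ⟨ρ, ρ.2, ?_⟩
      linear_combination -h
  rw [h2, Finset.card_image_of_injective]
  · rw [Finset.card_univ, Fintype.card_prod, Nat.card_eq_fintype_card, Fintype.card_units]
    have hq : 1 ≤ Fintype.card K := Fintype.card_pos
    push_cast [Nat.cast_sub hq]
    ring
  · rintro ⟨v, ρ⟩ ⟨v', ρ'⟩ h
    simp only [Prod.mk.injEq] at h
    obtain ⟨h3, rfl⟩ := h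
    have h4 : ((ρ : Kˣ) : K) = ((ρ' : Kˣ) : K) := by
      have h5 : (v : K) * (((ρ : Kˣ) : K) - ((ρ' : Kˣ) : K)) = 0 := by linear_combination h3
      rcases mul_eq_zero.1 h5 with h6 | h6
      · exact absurd h6 v.ne_zero
      · exact sub_eq_zero.1 h6
    have h5 : ρ = ρ' := Subtype.ext (Units.ext h4)
    rw [h5]

open scoped Classical in
theorem sum_ind_mul_eq (A : Kˣ) (p : ℕ) (R : Subgroup Kˣ) (x x' : Kˣ) :
    ∑ c : K, ∑ v : Kˣ, ind A p R c v x * ind A p R c v x' =
      (((univ : Finset (K × Kˣ)).filter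
        (fun cv : K × Kˣ => (∃ ρ ∈ R, (A : K) * (x : K) ^ p + cv.1 = cv.2 * ρ) ∧
          (∃ ρ ∈ R, (A : K) * (x' : K) ^ p + cv.1 = cv.2 * ρ))).card : ℝ) := by
  classical
  rw [← Fintype.sum_prod_type' (f := fun c v => ind A p R c v x * ind A p R c v x')]
  have : ∀ cv : K × Kˣ, ind A p R cv.1 cv.2 x * ind A p R cv.1 cv.2 x' =
      if ((∃ ρ ∈ R, (A : K) * (x : K) ^ p + cv.1 = cv.2 * ρ) ∧
          (∃ ρ ∈ R, (A : K) * (x' : K) ^ p + cv.1 = cv.2 * ρ)) then 1 else 0 := by
    intro cv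
    unfold ind
    by_cases h1 : (∃ ρ ∈ R, (A : K) * (x : K) ^ p + cv.1 = cv.2 * ρ) <;>
      by_cases h2 : (∃ ρ ∈ R, (A : K) * (x' : K) ^ p + cv.1 = cv.2 * ρ) <;>
      simp only [h1, h2, and_true, and_false, if_true, if_false, mul_one, mul_zero,
        and_self]
  rw [Finset.sum_congr rfl (fun cv _ => this cv), Finset.sum_ite, Finset.sum_const_zero, add_zero,
    Finset.sum_const, nsmul_eq_mul, mul_one]

theorem sum_ind_mul_same (A : Kˣ) (p : ℕ) (R : Subgroup Kˣ) (x x' : Kˣ) :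
    ∑ c : K, ∑ v : Kˣ, ind A p R c v x * ind A p R c v x' ≤
      (Nat.card R : ℝ) * (Fintype.card K - 1 : ℝ) := by
  classical
  rw [← sum_ind A p R x]
  apply Finset.sum_le_sum
  intro c _
  apply Finset.sum_le_sum
  intro v _
  unfold ind
  split_ifs <;> norm_num

theorem sum_ind_mul_ne (A : Kˣ) (p : ℕ) (R : Subgroup Kˣ) (x x' : Kˣ) (h : x ^ p ≠ x' ^ p) :
    ∑ c : K, ∑ v : Kˣ, ind A p R c v x * ind A p R c v x' ≤
      (Nat.card R : ℝ) * ((Nat.card R : ℝ) - 1) := by
  classical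
  rw [sum_ind_mul_eq]
  have hx : (x : K) ^ p ≠ (x' : K) ^ p := by
    intro h1
    exact h (Units.ext (by push_cast; exact h1))
  have h2 : ((univ : Finset (K × Kˣ)).filter
        (fun cv => (∃ ρ ∈ R, (A : K) * (x : K) ^ p + cv.1 = cv.2 * ρ) ∧
          (∃ ρ ∈ R, (A : K) * (x' : K) ^ p + cv.1 = cv.2 * ρ))).card ≤
      ((univ : Finset R).offDiag).card := by
    choose! f hf using (fun (cv : K × Kˣ) (h : ∃ ρ ∈ R, (A : K) * (x : K) ^ p + cv.1 = cv.2 * ρ) =>
      h)
    choose! g hg using (fun (cv : K × Kˣ)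
      (h : ∃ ρ ∈ R, (A : K) * (x' : K) ^ p + cv.1 = cv.2 * ρ) => h)
    apply Finset.card_le_card_of_injOn
      (fun cv => (if h : f cv ∈ R then ⟨f cv, h⟩ else 1, if h : g cv ∈ R then ⟨g cv, h⟩ else 1))
    · intro cv hcv
      rw [mem_coe, mem_filter] at hcv
      obtain ⟨-, h3, h4⟩ := hcv
      obtain ⟨h5, h6⟩ := hf cv h3
      obtain ⟨h7, h8⟩ := hg cv h4
      rw [mem_coe, mem_offDiag]
      refine ⟨mem_univ _, mem_univ _, ?_⟩
      simp only [dif_pos h5, dif_pos h7]
      intro h9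
      have h10 : f cv = g cv := congrArg Subtype.val h9
      rw [h10] at h6
      apply hx
      have h11 : (A : K) * ((x : K) ^ p - (x' : K) ^ p) = 0 := by linear_combination h6 - h8
      rcases mul_eq_zero.1 h11 with h12 | h12
      · exact absurd h12 A.ne_zero
      · exact sub_eq_zero.1 h12
    · intro cv hcv cv' hcv' heq
      rw [mem_coe, mem_filter] at hcv hcv'
      obtain ⟨-, h3, h4⟩ := hcv
      obtain ⟨-, h3', h4'⟩ := hcv'
      obtain ⟨h5, h6⟩ := hf cv h3
      obtain ⟨h7, h8⟩ := hg cv h4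
      obtain ⟨h5', h6'⟩ := hf cv' h3'
      obtain ⟨h7', h8'⟩ := hg cv' h4'
      simp only [dif_pos h5, dif_pos h7, dif_pos h5', dif_pos h7', Prod.mk.injEq] at heq
      have e1 : f cv = f cv' := congrArg Subtype.val heq.1
      have e2 : g cv = g cv' := congrArg Subtype.val heq.2
      rw [← e1] at h6'
      rw [← e2] at h8'
      have hne : ((f cv : Kˣ) : K) - ((g cv : Kˣ) : K) ≠ 0 := by
        intro h9
        have h10 : (A : K) * ((x : K) ^ p - (x' : K) ^ p) = 0 := by
          linear_combination h6 - h8 + (cv.2 : K) * h9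
        rcases mul_eq_zero.1 h10 with h12 | h12
        · exact absurd h12 A.ne_zero
        · exact hx (sub_eq_zero.1 h12)
      have h11 : ((cv.2 : K) - (cv'.2 : K)) * (((f cv : Kˣ) : K) - ((g cv : Kˣ) : K)) = 0 := by
        linear_combination h6' - h8' - h6 + h8
      have h12 : (cv.2 : K) = (cv'.2 : K) := by
        rcases mul_eq_zero.1 h11 with h12 | h12
        · exact sub_eq_zero.1 h12
        · exact absurd h12 hne
      have h13 : cv.1 = cv'.1 := by
        rw [← h12] at h6'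
        linear_combination h6 - h6'
      exact Prod.ext h13 (Units.ext h12)
  rw [Finset.offDiag_card, Finset.card_univ, ← Nat.card_eq_fintype_card] at h2
  have h3 : 1 ≤ Nat.card R := Nat.one_le_iff_ne_zero.2 (Nat.card_pos.ne')
  have h4 : Nat.card R ≤ Nat.card R * Nat.card R := Nat.le_mul_self _
  have h5 : (((univ : Finset (K × Kˣ)).filter
        (fun cv => (∃ ρ ∈ R, (A : K) * (x : K) ^ p + cv.1 = cv.2 * ρ) ∧
          (∃ ρ ∈ R, (A : K) * (x' : K) ^ p + cv.1 = cv.2 * ρ))).card : ℝ) ≤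
      ((Nat.card R * Nat.card R - Nat.card R : ℕ) : ℝ) := by exact_mod_cast h2
  refine h5.trans (le_of_eq ?_)
  rw [Nat.cast_sub h4]
  push_cast
  ring

/-- The number of pairs with `x ^ p = x' ^ p`. -/
noncomputable def nn (K : Type*) [Field K] [Fintype K] [DecidableEq K] (p : ℕ) : ℝ :=
  (((univ : Finset (Kˣ × Kˣ)).filter (fun xx => xx.1 ^ p = xx.2 ^ p)).card : ℝ)

theorem sum_bb_sq (A : Kˣ) (p : ℕ) (R : Subgroup Kˣ) :
    ∑ c : K, ∑ v : Kˣ, (bb A p R c v) ^ 2 ≤
      (Nat.card R : ℝ) * ((Fintype.card K - 1 : ℝ) * nn K p +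
        ((Nat.card R : ℝ) - 1) * (Fintype.card K - 1 : ℝ) ^ 2) := by
  classical
  have h1 : ∑ c : K, ∑ v : Kˣ, (bb A p R c v) ^ 2 =
      ∑ xx : Kˣ × Kˣ, ∑ c : K, ∑ v : Kˣ, ind A p R c v xx.1 * ind A p R c v xx.2 := by
    have h2 : ∀ c v, (bb A p R c v) ^ 2 =
        ∑ xx : Kˣ × Kˣ, ind A p R c v xx.1 * ind A p R c v xx.2 := by
      intro c v
      unfold bb
      rw [sq, Finset.sum_mul_sum, ← Fintype.sum_prod_type'
        (f := fun x x' => ind A p R c v x * ind A p R c v x')]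
    simp only [h2]
    calc ∑ c : K, ∑ v : Kˣ, ∑ xx : Kˣ × Kˣ, ind A p R c v xx.1 * ind A p R c v xx.2
        = ∑ c : K, ∑ xx : Kˣ × Kˣ, ∑ v : Kˣ, ind A p R c v xx.1 * ind A p R c v xx.2 := by
          apply Finset.sum_congr rfl
          intro c _
          exact Finset.sum_comm
      _ = _ := Finset.sum_comm
  rw [h1]
  have hR1 : (1 : ℝ) ≤ Nat.card R := by
    have : 1 ≤ Nat.card R := Nat.one_le_iff_ne_zero.2 (Nat.card_pos.ne')
    exact_mod_cast this
  calc ∑ xx : Kˣ × Kˣ, ∑ c : K, ∑ v : Kˣ, ind A p R c v xx.1 * ind A p R c v xx.2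
      ≤ ∑ xx : Kˣ × Kˣ, ((if xx.1 ^ p = xx.2 ^ p then
          (Nat.card R : ℝ) * (Fintype.card K - 1 : ℝ) else 0) +
          (Nat.card R : ℝ) * ((Nat.card R : ℝ) - 1)) := by
        apply Finset.sum_le_sum
        intro xx _
        split_ifs with h
        · refine (sum_ind_mul_same A p R xx.1 xx.2).trans ?_
          have : 0 ≤ (Nat.card R : ℝ) * ((Nat.card R : ℝ) - 1) := by
            apply mul_nonneg (by positivity) (by linarith)
          linarith
        · rw [zero_add]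
          exact sum_ind_mul_ne A p R xx.1 xx.2 h
    _ = _ := by
        rw [Finset.sum_add_distrib, Finset.sum_ite, Finset.sum_const_zero, add_zero,
          Finset.sum_const, Finset.sum_const, nsmul_eq_mul, nsmul_eq_mul, Finset.card_univ,
          Fintype.card_prod, Fintype.card_units]
        have hq : 1 ≤ Fintype.card K := Fintype.card_pos
        push_cast [Nat.cast_sub hq]
        unfold nn
        ring

theorem sum_bb (A : Kˣ) (p : ℕ) (R : Subgroup Kˣ) :
    ∑ c : K, ∑ v : Kˣ, bb A p R c v = (Nat.card R : ℝ) * (Fintype.card K - 1 : ℝ) ^ 2 := by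
  classical
  calc ∑ c : K, ∑ v : Kˣ, bb A p R c v = ∑ c : K, ∑ x : Kˣ, ∑ v : Kˣ, ind A p R c v x := by
        apply Finset.sum_congr rfl
        intro c _
        unfold bb
        exact Finset.sum_comm
    _ = ∑ x : Kˣ, ∑ c : K, ∑ v : Kˣ, ind A p R c v x := Finset.sum_comm
    _ = ∑ x : Kˣ, (Nat.card R : ℝ) * (Fintype.card K - 1 : ℝ) := by
        apply Finset.sum_congr rfl
        intro x _
        exact sum_ind A p R x
    _ = _ := by
        rw [Finset.sum_const, nsmul_eq_mul, Finset.card_univ, Fintype.card_units]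
        have hq : 1 ≤ Fintype.card K := Fintype.card_pos
        push_cast [Nat.cast_sub hq]
        ring

/-- The mean value of `bb`. -/
noncomputable def mm (R : Subgroup Kˣ) : ℝ :=
  (Nat.card R : ℝ) * (Fintype.card K - 1 : ℝ) / Fintype.card K

theorem variance (A : Kˣ) (p : ℕ) (R : Subgroup Kˣ) :
    ∑ c : K, ∑ v : Kˣ, (bb A p R c v - mm R) ^ 2 ≤
      (Nat.card R : ℝ) * ((Fintype.card K - 1 : ℝ) * nn K p) := by
  classical
  have h1 : ∑ c : K, ∑ v : Kˣ, (bb A p R c v - mm R) ^ 2 =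
      ∑ c : K, ∑ v : Kˣ, (bb A p R c v) ^ 2 - 2 * mm R * ∑ c : K, ∑ v : Kˣ, bb A p R c v +
        mm R ^ 2 * (Fintype.card K * (Fintype.card K - 1)) := by
    have h2 : ∀ c v, (bb A p R c v - mm R) ^ 2 =
        (bb A p R c v) ^ 2 - 2 * mm R * bb A p R c v + mm R ^ 2 := by
      intro c v; ring
    simp only [h2, Finset.sum_add_distrib, Finset.sum_sub_distrib, ← Finset.mul_sum]
    rw [Finset.sum_const, Finset.sum_const, nsmul_eq_mul, nsmul_eq_mul, Finset.card_univ,
      Finset.card_univ, Fintype.card_units]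
    have hq : 1 ≤ Fintype.card K := Fintype.card_pos
    push_cast [Nat.cast_sub hq]
    ring
  rw [h1, sum_bb]
  have h3 := sum_bb_sq A p R
  have hq : (0 : ℝ) < Fintype.card K := by exact_mod_cast (Fintype.card_pos (α := K))
  have hRq : (Nat.card R : ℝ) ≤ Fintype.card K := by
    have h4 : Nat.card R ≤ Nat.card Kˣ := Subgroup.card_le_card_group R
    rw [Nat.card_eq_fintype_card (α := Kˣ), Fintype.card_units] at h4
    have h5 : Nat.card R ≤ Fintype.card K := by omega
    exact_mod_cast h5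
  have hR0 : (0 : ℝ) ≤ Nat.card R := Nat.cast_nonneg _
  unfold mm
  set q : ℝ := (Fintype.card K : ℝ) with hqdef
  set n : ℝ := (Nat.card R : ℝ) with hn
  have h6 : n * (q - 1) / q * (n * (q - 1) ^ 2) = n * ((q - 1) ^ 2 * (n * (q - 1) / q)) := by
    ring
  have h7 : (n * (q - 1) / q) ^ 2 * (q * (q - 1)) = n * ((q - 1) ^ 2 * (n * (q - 1) / q)) := by
    field_simp
  have h8 : n * ((q - 1) * nn K p + (n - 1) * (q - 1) ^ 2) -
      2 * (n * (q - 1) / q) * (n * (q - 1) ^ 2) + (n * (q - 1) / q) ^ 2 * (q * (q - 1)) =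
      n * ((q - 1) * nn K p) + n * (q - 1) ^ 2 * (n / q - 1) := by
    field_simp
    ring
  have h9 : n * (q - 1) ^ 2 * (n / q - 1) ≤ 0 := by
    apply mul_nonpos_of_nonneg_of_nonpos (by positivity)
    rw [sub_nonpos, div_le_one hq]
    exact hRq
  linarith

theorem bb_invariant (A : Kˣ) (p : ℕ) (R : Subgroup Kˣ) (c : K) (v w ρ : Kˣ) (hρ : ρ ∈ R) :
    bb A p R (c * (w : K) ^ p) (v * w ^ p * ρ) = bb A p R c v := by
  classical
  unfold bb
  rw [← Equiv.sum_comp (Equiv.mulLeft w)]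
  apply Finset.sum_congr rfl
  intro x _
  unfold ind
  have hiff : (∃ ρ' ∈ R, (A : K) * (((Equiv.mulLeft w) x : Kˣ) : K) ^ p + c * (w : K) ^ p =
      ((v * w ^ p * ρ : Kˣ) : K) * ρ') ↔ (∃ ρ' ∈ R, (A : K) * (x : K) ^ p + c = v * ρ') := by
    have hw : (w : K) ^ p ≠ 0 := pow_ne_zero _ w.ne_zero
    constructor
    · rintro ⟨ρ', h1, h2⟩
      refine ⟨ρ * ρ', R.mul_mem hρ h1, ?_⟩
      have h3 : (w : K) ^ p * ((A : K) * (x : K) ^ p + c) = (w : K) ^ p * (v * (ρ * ρ' : Kˣ)) := by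
        simp only [Equiv.coe_mulLeft, Units.val_mul, Units.val_pow_eq_pow_val, mul_pow] at h2 ⊢
        linear_combination h2
      exact mul_left_cancel₀ hw h3
    · rintro ⟨ρ', h1, h2⟩
      refine ⟨ρ⁻¹ * ρ', R.mul_mem (R.inv_mem hρ) h1, ?_⟩
      have h4 : ((v * w ^ p * ρ : Kˣ) : K) * ((ρ⁻¹ * ρ' : Kˣ) : K) =
          ((v * w ^ p * ρ * (ρ⁻¹ * ρ') : Kˣ) : K) := by push_cast; ring
      rw [h4]
      have h5 : v * w ^ p * ρ * (ρ⁻¹ * ρ') = v * ρ' * w ^ p := by
        rw [mul_assoc (v * w ^ p), ← mul_assoc ρ, mul_inv_cancel, one_mul]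
        exact mul_right_comm v (w ^ p) ρ'
      rw [h5]
      simp only [Equiv.coe_mulLeft, Units.val_mul, Units.val_pow_eq_pow_val, mul_pow]
      linear_combination (w : K) ^ p * h2
  simp only [hiff]

theorem bb_close (A : Kˣ) (p : ℕ) (R : Subgroup Kˣ) (d : ℕ)
    (hd : ∀ u : Kˣ, ((univ : Finset Kˣ).filter (fun x => x ^ p = u)).card ≤ d) (c v : Kˣ) :
    (bb A p R c v - mm R) ^ 2 ≤ (Fintype.card K - 1 : ℝ) * d ^ 2 := by
  classical
  have hq1 : 1 ≤ Fintype.card K := Fintype.card_pos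
  have hq2 : 1 < Fintype.card K := Fintype.one_lt_card
  have hq3 : (0 : ℝ) < (Fintype.card K : ℝ) - 1 := by
    have : (1 : ℝ) < Fintype.card K := by exact_mod_cast hq2
    linarith
  have hR1 : (0 : ℝ) < Nat.card R := by exact_mod_cast Nat.card_pos
  -- number of pairs
  have hnn : nn K p ≤ (Fintype.card K - 1 : ℝ) * d := by
    unfold nn
    have h1 : ((univ : Finset (Kˣ × Kˣ)).filter (fun xx => xx.1 ^ p = xx.2 ^ p)).card ≤
        ∑ x' : Kˣ, ((univ : Finset Kˣ).filter (fun x => x ^ p = x' ^ p)).card := by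
      rw [Finset.card_eq_sum_card_fiberwise (f := fun xx : Kˣ × Kˣ => xx.2) (t := univ)
        (fun _ _ => mem_coe.2 (mem_univ _))]
      apply Finset.sum_le_sum
      intro x' _
      apply Finset.card_le_card_of_injOn (fun xx => xx.1)
      · intro xx hxx
        simp only [coe_filter, mem_filter, mem_univ, true_and, Set.mem_ofPred_eq] at hxx ⊢
        rw [← hxx.2]; exact hxx.1
      · intro xx hxx yy hyy h
        simp only [coe_filter, mem_filter, mem_univ, true_and, Set.mem_ofPred_eq] at hxx hyy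
        exact Prod.ext h (hxx.2.trans hyy.2.symm)
    have h2 : ∑ x' : Kˣ, ((univ : Finset Kˣ).filter (fun x => x ^ p = x' ^ p)).card ≤
        Fintype.card Kˣ * d := by
      calc ∑ x' : Kˣ, ((univ : Finset Kˣ).filter (fun x => x ^ p = x' ^ p)).card
          ≤ ∑ x' : Kˣ, d := Finset.sum_le_sum (fun x' _ => hd _)
        _ = Fintype.card Kˣ * d := by rw [Finset.sum_const, smul_eq_mul, Finset.card_univ]
    have h3 : (((univ : Finset (Kˣ × Kˣ)).filter (fun xx => xx.1 ^ p = xx.2 ^ p)).card : ℝ) ≤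
        ((Fintype.card Kˣ * d : ℕ) : ℝ) := by exact_mod_cast h1.trans h2
    refine h3.trans (le_of_eq ?_)
    rw [Fintype.card_units]
    push_cast [Nat.cast_sub hq1]
    ring
  set G : K × Kˣ → ℝ := fun cv => (bb A p R cv.1 cv.2 - mm R) ^ 2 with hG
  have hG0 : ∀ cv, 0 ≤ G cv := fun cv => sq_nonneg _
  set φ : Kˣ × R → K × Kˣ := fun wr => ((c : K) * (wr.1 : K) ^ p, v * wr.1 ^ p * wr.2) with hφ
  have h4 : ∑ wr : Kˣ × R, G (φ wr) = (Fintype.card K - 1 : ℝ) * Nat.card R *
      (bb A p R c v - mm R) ^ 2 := by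
    have h5 : ∀ wr : Kˣ × R, G (φ wr) = (bb A p R c v - mm R) ^ 2 := by
      intro wr
      simp only [hG, hφ]
      rw [bb_invariant A p R c v wr.1 wr.2 wr.2.2]
    rw [Finset.sum_congr rfl (fun wr _ => h5 wr), Finset.sum_const, nsmul_eq_mul,
      Finset.card_univ, Fintype.card_prod, Fintype.card_units, Nat.card_eq_fintype_card]
    push_cast [Nat.cast_sub hq1]
    ring
  have h6 : ∑ wr : Kˣ × R, G (φ wr) ≤ d * ∑ cv : K × Kˣ, G cv := by
    rw [← Finset.sum_fiberwise_of_maps_to (s := (univ : Finset (Kˣ × R))) (t := univ) (g := φ)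
      (fun _ _ => mem_univ _), Finset.mul_sum]
    apply Finset.sum_le_sum
    intro cv _
    have h7 : ∑ wr ∈ (univ : Finset (Kˣ × R)).filter (fun wr => φ wr = cv), G (φ wr) =
        ((univ : Finset (Kˣ × R)).filter (fun wr => φ wr = cv)).card * G cv := by
      rw [Finset.sum_congr rfl (g := fun _ => G cv) (fun wr hwr => by rw [(mem_filter.1 hwr).2]),
        Finset.sum_const, nsmul_eq_mul]
    rw [h7]
    apply mul_le_mul_of_nonneg_right _ (hG0 cv)
    have h8 : ((univ : Finset (Kˣ × R)).filter (fun wr => φ wr = cv)).card ≤ d := by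
      rcases Finset.eq_empty_or_nonempty ((univ : Finset (Kˣ × R)).filter (fun wr => φ wr = cv))
        with h9 | ⟨wr0, h9⟩
      · rw [h9, Finset.card_empty]; exact Nat.zero_le _
      · refine le_trans ?_ (hd (wr0.1 ^ p))
        apply Finset.card_le_card_of_injOn (fun wr => wr.1)
        · intro wr hwr
          rw [mem_coe, mem_filter] at hwr ⊢
          rw [mem_filter] at h9
          refine ⟨mem_univ _, ?_⟩
          have h10 : φ wr = φ wr0 := hwr.2.trans h9.2.symm
          simp only [hφ, Prod.mk.injEq] at h10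
          have h11 := mul_left_cancel₀ c.ne_zero h10.1
          exact Units.ext (by push_cast; exact h11)
        · intro wr hwr wr' hwr' h10
          rw [mem_coe, mem_filter] at hwr hwr'
          have h11 : φ wr = φ wr' := hwr.2.trans hwr'.2.symm
          simp only at h10
          simp only [hφ, Prod.mk.injEq, h10] at h11
          have h12 := mul_left_cancel h11.2
          exact Prod.ext h10 (Subtype.ext h12)
    exact_mod_cast h8
  have h13 : ∑ cv : K × Kˣ, G cv ≤ (Nat.card R : ℝ) * ((Fintype.card K - 1 : ℝ) * nn K p) := by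
    rw [Fintype.sum_prod_type]
    exact variance A p R
  have h14 : (Fintype.card K - 1 : ℝ) * Nat.card R * (bb A p R c v - mm R) ^ 2 ≤
      (Fintype.card K - 1 : ℝ) * Nat.card R * ((Fintype.card K - 1 : ℝ) * d ^ 2) := by
    rw [← h4]
    refine h6.trans ?_
    have hd0 : (0 : ℝ) ≤ d := Nat.cast_nonneg _
    calc (d : ℝ) * ∑ cv : K × Kˣ, G cv
        ≤ d * ((Nat.card R : ℝ) * ((Fintype.card K - 1 : ℝ) * ((Fintype.card K - 1 : ℝ) * d))) := by
          apply mul_le_mul_of_nonneg_left _ hd0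
          refine h13.trans ?_
          apply mul_le_mul_of_nonneg_left _ hR1.le
          exact mul_le_mul_of_nonneg_left hnn hq3.le
      _ = _ := by ring
  exact le_of_mul_le_mul_left h14 (by positivity)

end Pool.Agent.Lib.MP_509488_nt.Density
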