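import Pool.Agent.Lib.MP_509488_nt.Density.Local

/-!
# The local density bound
-/

namespace Pool.Agent.Lib.MP_509488_nt.Density

open Finset

theorem card_pow_eq_le (l : ℕ) [Fact l.Prime] (p : ℕ) (u : (ZMod l)ˣ) :
    ((univ : Finset (ZMod l)ˣ).filter (fun x => x ^ p = u)).card ≤ Nat.gcd p (l - 1) := by
  classical
  have hl : l.Prime := Fact.out
  have hg : 0 < Nat.gcd p (l - 1) := Nat.gcd_pos_of_pos_right _ (by have := hl.two_le; omega)
  rcases Finset.eq_empty_or_nonempty ((univ : Finset (ZMod l)ˣ).filter (fun x => x ^ p = u))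
    with h | ⟨x0, h0⟩
  · rw [h, Finset.card_empty]; exact Nat.zero_le _
  · rw [mem_filter] at h0
    refine le_trans ?_ (IsCyclic.card_pow_eq_one_le (α := (ZMod l)ˣ) hg)
    apply Finset.card_le_card_of_injOn (fun x => x * x0⁻¹)
    · intro x hx
      rw [mem_coe, mem_filter] at hx ⊢
      refine ⟨mem_univ _, ?_⟩
      have h1 : (x * x0⁻¹) ^ p = 1 := by
        rw [mul_pow, inv_pow, hx.2, h0.2, mul_inv_cancel]
      have h2 : (x * x0⁻¹) ^ (l - 1) = 1 := by
        rw [← ZMod.card_units l]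
        exact pow_card_eq_one
      exact pow_gcd_eq_one.2 ⟨h1, h2⟩
    · intro x _ y _ h
      exact mul_right_cancel h

theorem two_card_range_le (l : ℕ) [Fact l.Prime] (r : ℕ) (hr : 2 ≤ r) (h : r ∣ l - 1) :
    2 * Nat.card (powMonoidHom r : (ZMod l)ˣ →* (ZMod l)ˣ).range ≤ l - 1 := by
  rw [IsCyclic.card_powMonoidHom_range]
  have h1 : Nat.card (ZMod l)ˣ = l - 1 := by
    rw [Nat.card_eq_fintype_card, ZMod.card_units]
  rw [h1, Nat.gcd_eq_right h]
  calc 2 * ((l - 1) / r) ≤ r * ((l - 1) / r) := Nat.mul_le_mul_right _ hr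
    _ ≤ l - 1 := Nat.mul_div_le _ _

theorem local_count (l : ℕ) [Fact l.Prime] (r p : ℕ) (hr : 2 ≤ r) (hrl : r ∣ l - 1)
    (hd : 1600 * (Nat.gcd p (l - 1)) ^ 2 ≤ l) (A C s : ZMod l) (hA : A ≠ 0) (hC : C ≠ 0)
    (hs : s ≠ 0) :
    (((univ : Finset (ZMod l)).filter (fun x => ∃ z, A * x ^ p + s = C * z ^ r)).card : ℝ) ≤
      11 / 20 * l := by
  classical
  have hl : l.Prime := Fact.out
  set d := Nat.gcd p (l - 1) with hdd
  have hd1 : 1 ≤ d := Nat.gcd_pos_of_pos_right _ (by have := hl.two_le; omega)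
  set R := (powMonoidHom r : (ZMod l)ˣ →* (ZMod l)ˣ).range with hR
  set A' : (ZMod l)ˣ := Units.mk0 A hA with hA'
  set C' : (ZMod l)ˣ := Units.mk0 C hC with hC'
  set s' : (ZMod l)ˣ := Units.mk0 s hs with hs'
  have hfib := card_pow_eq_le l p
  have hclose := bb_close A' p R d hfib s' C'
  have hcardF : Fintype.card (ZMod l) = l := ZMod.card l
  -- the count in terms of bb
  have hbb : bb A' p R (s' : ZMod l) C' = (((univ : Finset (ZMod l)ˣ).filter
      (fun x : (ZMod l)ˣ => ∃ ρ ∈ R, (A' : ZMod l) * (x : ZMod l) ^ p + s' = C' * ρ)).card : ℝ) := by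
    rw [bb_eq_card]
    congr!
  have hsub : (univ : Finset (ZMod l)).filter (fun x => ∃ z, A * x ^ p + s = C * z ^ r) ⊆
      {0} ∪ (((univ : Finset (ZMod l)ˣ).filter (fun x => x ^ p = - s' * A'⁻¹)).image
        (fun x : (ZMod l)ˣ => (x : ZMod l))) ∪
      (((univ : Finset (ZMod l)ˣ).filter
      (fun x : (ZMod l)ˣ => ∃ ρ ∈ R, (A' : ZMod l) * (x : ZMod l) ^ p + s' = C' * ρ)).image
        (fun x : (ZMod l)ˣ => (x : ZMod l))) := by
    intro x hx
    rw [mem_filter] at hx
    obtain ⟨-, z, hz⟩ := hx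
    rw [mem_union, mem_union]
    by_cases hx0 : x = 0
    · left; left; rw [hx0]; exact mem_singleton_self 0
    · by_cases hz0 : z = 0
      · left; right
        rw [mem_image]
        refine ⟨Units.mk0 x hx0, ?_, rfl⟩
        rw [mem_filter]
        refine ⟨mem_univ _, ?_⟩
        rw [hz0, zero_pow (by omega), mul_zero] at hz
        apply Units.ext
        simp only [Units.val_pow_eq_pow_val, Units.val_mk0, Units.val_mul, Units.val_neg, hs',
          hA', Units.val_inv_eq_inv_val]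
        field_simp
        linear_combination hz
      · right
        rw [mem_image]
        refine ⟨Units.mk0 x hx0, ?_, rfl⟩
        rw [mem_filter]
        refine ⟨mem_univ _, (Units.mk0 z hz0) ^ r, ⟨Units.mk0 z hz0, rfl⟩, ?_⟩
        simp only [Units.val_mk0, hA', hs', hC', Units.val_pow_eq_pow_val]
        exact hz
  have hcard := Finset.card_le_card hsub
  have h1 : (({0} ∪ (((univ : Finset (ZMod l)ˣ).filter (fun x => x ^ p = - s' * A'⁻¹)).image
        (fun x : (ZMod l)ˣ => (x : ZMod l))) ∪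
      (((univ : Finset (ZMod l)ˣ).filter
      (fun x : (ZMod l)ˣ => ∃ ρ ∈ R, (A' : ZMod l) * (x : ZMod l) ^ p + s' = C' * ρ)).image
        (fun x : (ZMod l)ˣ => (x : ZMod l))) : Finset (ZMod l))).card ≤
      1 + d + ((univ : Finset (ZMod l)ˣ).filter
      (fun x : (ZMod l)ˣ => ∃ ρ ∈ R, (A' : ZMod l) * (x : ZMod l) ^ p + s' = C' * ρ)).card := by
    refine (Finset.card_union_le _ _).trans ?_
    refine Nat.add_le_add ((Finset.card_union_le _ _).trans ?_) Finset.card_image_le
    refine Nat.add_le_add (le_of_eq (Finset.card_singleton _)) ?_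
    exact Finset.card_image_le.trans (hfib _)
  have h2 : (((univ : Finset (ZMod l)).filter (fun x => ∃ z, A * x ^ p + s = C * z ^ r)).card : ℝ)
      ≤ 1 + d + bb A' p R (s' : ZMod l) C' := by
    rw [hbb]
    exact_mod_cast hcard.trans h1
  refine h2.trans ?_
  have hl0 : (0 : ℝ) < l := by exact_mod_cast hl.pos
  have hdR : (1600 : ℝ) * (d : ℝ) ^ 2 ≤ l := by exact_mod_cast hd
  have hd1R : (1 : ℝ) ≤ d := by exact_mod_cast hd1
  have h3 : (bb A' p R (s' : ZMod l) C' - mm R) ^ 2 ≤ (l / 40 : ℝ) ^ 2 := by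
    refine hclose.trans ?_
    rw [hcardF]
    nlinarith
  have h4 : bb A' p R (s' : ZMod l) C' - mm R ≤ l / 40 := by
    exact (le_abs_self _).trans (abs_le_of_sq_le_sq h3 (by positivity))
  have h5 : mm R ≤ (l - 1) / 2 := by
    unfold mm
    rw [hcardF]
    have h6 := two_card_range_le l r hr hrl
    have h7 : (2 : ℝ) * Nat.card R ≤ l - 1 := by
      have h8 : ((2 * Nat.card R : ℕ) : ℝ) ≤ ((l - 1 : ℕ) : ℝ) := by exact_mod_cast h6
      rw [Nat.cast_sub hl.one_lt.le] at h8
      push_cast at h8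
      exact h8
    have h9 : (Nat.card R : ℝ) * ((l : ℝ) - 1) / l ≤ Nat.card R := by
      rw [div_le_iff₀ hl0]
      have : (0 : ℝ) ≤ Nat.card R := Nat.cast_nonneg _
      nlinarith
    linarith
  have h10 : (d : ℝ) ≤ l / 1600 := by
    have : (d : ℝ) ≤ (d : ℝ) ^ 2 := by nlinarith
    linarith
  linarith

end Pool.Agent.Lib.MP_509488_nt.Density
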