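import Pool.Agent.Lib.MP_509488_nt.Density.Sieve2
import Pool.Agent.Lib.MP_325d88_nt.PNTAP

/-!
# Many primes `l ≡ 1 mod r` such that `l - 1` divides `(Y!)^2` with a small `Y`
-/

namespace Pool.Agent.Lib.MP_509488_nt.Density

open Finset Pool.Agent.Lib.MP_325d88_nt

theorem dichotomy (n X u Y : ℕ) (hn : n ≤ X) (hu1 : 1 ≤ u) (hun : u ≤ n) (hY : 1 ≤ Y)
    (huY : X ≤ u * Y) :
    n ∣ (Y.factorial) ^ 2 ∨ ∃ q m : ℕ, q.Prime ∧ n = m * q ∧ m * Y < X * u := by
  classical
  have hne : ∃ d, d ∣ n ∧ u ≤ d := ⟨n, dvd_rfl, hun⟩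
  set d := Nat.find hne with hd
  obtain ⟨hdn, hud⟩ := Nat.find_spec hne
  have hmin : ∀ d', d' < d → ¬ (d' ∣ n ∧ u ≤ d') := fun d' h => Nat.find_min hne h
  rw [← hd] at hdn hud
  have hn0 : 0 < n := by omega
  have hd0 : 0 < d := by omega
  by_cases hdY : d ≤ Y
  · left
    obtain ⟨e, he⟩ := hdn
    have he0 : 0 < e := by
      rcases Nat.eq_zero_or_pos e with h | h
      · rw [h, mul_zero] at he; omega
      · exact h
    have heY : e ≤ Y := by
      by_contra h
      push Not at h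
      have h1 : u * Y < d * e := by
        calc u * Y < u * e := Nat.mul_lt_mul_of_pos_left h (by omega)
          _ ≤ d * e := Nat.mul_le_mul_right _ hud
      omega
    rw [he, sq]
    exact Nat.mul_dvd_mul (Nat.dvd_factorial hd0 hdY) (Nat.dvd_factorial he0 heY)
  · right
    push Not at hdY
    have hd2 : d ≠ 1 := by omega
    set q := d.minFac with hq
    have hqp : q.Prime := Nat.minFac_prime hd2
    obtain ⟨e, he⟩ := Nat.minFac_dvd d
    rw [← hq] at he
    obtain ⟨f, hf⟩ := hdn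
    have he0 : 0 < e := by
      rcases Nat.eq_zero_or_pos e with h | h
      · rw [h, mul_zero] at he; omega
      · exact h
    have hed : e < d := by
      rw [he]
      calc e = 1 * e := (one_mul e).symm
        _ < q * e := Nat.mul_lt_mul_of_pos_right hqp.one_lt he0
    have heu : e < u := by
      by_contra h
      push Not at h
      exact hmin e hed ⟨⟨q * f, by rw [hf, he]; ring⟩, h⟩
    refine ⟨q, e * f, hqp, by rw [hf, he]; ring, ?_⟩
    have hf0 : 0 < f := by
      rcases Nat.eq_zero_or_pos f with h | h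
      · rw [h, mul_zero] at hf; omega
      · exact h
    calc e * f * Y < e * f * d := by
          apply Nat.mul_lt_mul_of_pos_left hdY
          positivity
      _ = e * n := by rw [hf]; ring
      _ ≤ e * X := Nat.mul_le_mul_left _ hn
      _ ≤ X * u := by
          rw [mul_comm]
          exact Nat.mul_le_mul_left _ heu.le

/-- Primes `l ≡ 1 mod r` in `(√X, X]`, where `X = Z ^ h`, with `l - 1` dividing
`((Z ^ (h - 1))!)^2`. -/
noncomputable def smoothPrimes (r h Z : ℕ) : Finset ℕ :=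
  (Finset.Icc 1 (Z ^ h)).filter (fun l => l.Prime ∧ r ∣ l - 1 ∧ Z ^ h < l ^ 2 ∧
    l - 1 ∣ ((Z ^ (h - 1)).factorial) ^ 2)

theorem cover_primes (r h Z : ℕ) (hh : 4 ≤ h) (hZ : 2 ≤ Z) :
    (Finset.range (Z ^ h + 1)).filter (fun p => p.Prime ∧ p ≡ 1 [MOD r]) ⊆
      smoothPrimes r h Z ∪ Finset.Icc 1 (Nat.sqrt (Z ^ h)) ∪
      (Finset.Icc 1 (Z ^ 2)).biUnion (fun m =>
        ((Finset.Icc 1 (Z ^ h / m)).filter (fun q => q.Prime ∧ (m * q + 1).Prime)).image
          (fun q => m * q + 1)) := by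
  set X := Z ^ h with hX
  set Y := Z ^ (h - 1) with hY
  have hXY : X = Z * Y := by
    rw [hX, hY, ← pow_succ']
    congr 1
    omega
  have hY1 : 1 ≤ Y := Nat.one_le_pow _ _ (by omega)
  intro l hl
  rw [mem_filter, mem_range] at hl
  obtain ⟨hlX, hlp, hlr⟩ := hl
  rw [mem_union, mem_union]
  by_cases hls : l ≤ Nat.sqrt X
  · left; right
    rw [mem_Icc]
    exact ⟨hlp.one_lt.le, hls⟩
  push Not at hls
  have hl2 : X < l ^ 2 := by
    rw [sq]
    exact Nat.sqrt_lt.1 hls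
  have hrl : r ∣ l - 1 := (Nat.modEq_iff_dvd' hlp.one_lt.le).1 hlr.symm
  have hul : Z ≤ l - 1 := by
    have h4 : Z + 1 ≤ l := by
      by_contra h
      push Not at h
      have h5 : l ^ 2 ≤ Z ^ 2 := Nat.pow_le_pow_left (by omega) 2
      have h6 : Z ^ 2 ≤ X := Nat.pow_le_pow_right (by omega) (by omega)
      omega
    omega
  rcases dichotomy (l - 1) X Z Y (by omega) (by omega) hul hY1 hXY.le with h | h
  · left; left
    unfold smoothPrimes
    rw [mem_filter, mem_Icc]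
    exact ⟨⟨hlp.one_lt.le, by omega⟩, hlp, hrl, hl2, h⟩
  · right
    obtain ⟨q, m, hq, hlm, hmY⟩ := h
    have hm0 : 1 ≤ m := by
      rcases Nat.eq_zero_or_pos m with h | h
      · rw [h, zero_mul] at hlm
        omega
      · exact h
    have hleq : l = m * q + 1 := by omega
    rw [mem_biUnion]
    refine ⟨m, ?_, ?_⟩
    · rw [mem_Icc]
      refine ⟨hm0, ?_⟩
      have h5 : m * Y < Z ^ 2 * Y := by
        calc m * Y < X * Z := hmY
          _ = Z ^ 2 * Y := by rw [hXY]; ring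
      exact (Nat.lt_of_mul_lt_mul_right h5).le
    · rw [mem_image]
      refine ⟨q, ?_, hleq.symm⟩
      rw [mem_filter, mem_Icc]
      refine ⟨⟨hq.one_lt.le, ?_⟩, hq, by rw [← hleq]; exact hlp⟩
      rw [Nat.le_div_iff_mul_le (by omega)]
      have : q * m = m * q := mul_comm _ _
      omega

theorem bad_count : ∃ C : ℝ, 1 ≤ C ∧ ∃ Z0 : ℕ, ∀ h Z : ℕ, 6 ≤ h → Z0 ≤ Z →
    (((Finset.Icc 1 (Z ^ 2)).biUnion (fun m =>
        ((Finset.Icc 1 (Z ^ h / m)).filter (fun q => q.Prime ∧ (m * q + 1).Prime)).image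
          (fun q => m * q + 1))).card : ℝ) ≤
      C * ((Z ^ h : ℕ) / (Real.log (Z ^ h : ℕ)) ^ 2) * (1 + Real.log (Z ^ 2 : ℕ)) := by
  obtain ⟨C1, hC11, T0, hT02, hC1⟩ := lin_pair_sieve
  obtain ⟨C2, hC21, hC2⟩ := sing_log_avg
  refine ⟨4 * C1 * C2, by nlinarith, max T0 4, fun h Z hh hZ => ?_⟩
  have hZT : T0 ≤ Z := le_trans (le_max_left _ _) hZ
  have hZ4 : 4 ≤ Z := le_trans (le_max_right _ _) hZ
  set X := Z ^ h with hX
  have hXZ : Z ≤ X := Nat.le_self_pow (by omega) Z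
  have hX4 : 4 ≤ X := hZ4.trans hXZ
  have hXr : (4 : ℝ) ≤ X := by exact_mod_cast hX4
  have hlogX : 0 < Real.log X := Real.log_pos (by linarith)
  have hstep : ∀ m ∈ Finset.Icc 1 (Z ^ 2),
      (((Finset.Icc 1 (X / m)).filter (fun q => q.Prime ∧ (m * q + 1).Prime)).card : ℝ) ≤
      4 * C1 * (X / (Real.log X) ^ 2) * (((m : ℝ) / Nat.totient m) / m) := by
    intro m hm
    rw [mem_Icc] at hm
    obtain ⟨hm1, hm2⟩ := hm
    have hm0 : 0 < m := by omega
    set T := X / m with hT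
    have hTZ : Z ^ (h - 2) ≤ T := by
      rw [hT, Nat.le_div_iff_mul_le hm0]
      calc Z ^ (h - 2) * m ≤ Z ^ (h - 2) * Z ^ 2 := Nat.mul_le_mul_left _ hm2
        _ = X := by rw [hX, ← pow_add]; congr 1; omega
    have hT2 : X ≤ T ^ 2 := by
      calc X = Z ^ h := hX
        _ ≤ Z ^ ((h - 2) * 2) := Nat.pow_le_pow_right (by omega) (by omega)
        _ = (Z ^ (h - 2)) ^ 2 := by rw [pow_mul]
        _ ≤ T ^ 2 := Nat.pow_le_pow_left hTZ 2
    have hZT2 : Z ≤ T := (Nat.le_self_pow (by omega) Z).trans hTZ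
    have hTT0 : T0 ≤ T := hZT.trans hZT2
    refine (hC1 T hTT0 m hm1).trans ?_
    have hT0 : (0 : ℝ) < T := by
      have : 0 < T := by omega
      exact_mod_cast this
    have hT1 : (1 : ℝ) < T := by
      have : 1 < T := by omega
      exact_mod_cast this
    have hlogT : Real.log X ≤ 2 * Real.log T := by
      have h5 : (X : ℝ) ≤ (T : ℝ) ^ 2 := by exact_mod_cast hT2
      have h6 := Real.log_le_log (by linarith) h5
      rw [Real.log_pow] at h6
      push_cast at h6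
      exact h6
    have hlogT0 : 0 < Real.log T := Real.log_pos hT1
    have hmr : (0 : ℝ) < m := by exact_mod_cast hm0
    have hTm : (T : ℝ) ≤ X / m := by
      rw [hT]
      exact Nat.cast_div_le
    have h7 : (T : ℝ) / (Real.log T) ^ 2 ≤ 4 * (X / (Real.log X) ^ 2) / m := by
      have h8 : (Real.log X) ^ 2 ≤ 4 * (Real.log T) ^ 2 := by nlinarith
      rw [div_le_iff₀ (by positivity)]
      have h9 : 4 * ((X : ℝ) / (Real.log X) ^ 2) / m * (Real.log T) ^ 2 =
          (X / m) * (4 * (Real.log T) ^ 2 / (Real.log X) ^ 2) := by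
        field_simp
      rw [h9]
      have h10 : 1 ≤ 4 * (Real.log T) ^ 2 / (Real.log X) ^ 2 := by
        rw [one_le_div (by positivity)]
        exact h8
      have h11 : (0 : ℝ) ≤ X / m := by positivity
      nlinarith
    have h12 : (0 : ℝ) ≤ C1 * ((m : ℝ) / Nat.totient m) := by positivity
    calc C1 * ((m : ℝ) / Nat.totient m) * ((T : ℝ) / (Real.log T) ^ 2)
        ≤ C1 * ((m : ℝ) / Nat.totient m) * (4 * (X / (Real.log X) ^ 2) / m) :=
          mul_le_mul_of_nonneg_left h7 h12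
      _ = _ := by ring
  have hcard : (((Finset.Icc 1 (Z ^ 2)).biUnion (fun m =>
        ((Finset.Icc 1 (X / m)).filter (fun q => q.Prime ∧ (m * q + 1).Prime)).image
          (fun q => m * q + 1))).card : ℝ) ≤ ∑ m ∈ Finset.Icc 1 (Z ^ 2),
      (((Finset.Icc 1 (X / m)).filter (fun q => q.Prime ∧ (m * q + 1).Prime)).card : ℝ) := by
    have h2 : ((Finset.Icc 1 (Z ^ 2)).biUnion (fun m =>
        ((Finset.Icc 1 (X / m)).filter (fun q => q.Prime ∧ (m * q + 1).Prime)).image
          (fun q => m * q + 1))).card ≤ ∑ m ∈ Finset.Icc 1 (Z ^ 2),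
      ((Finset.Icc 1 (X / m)).filter (fun q => q.Prime ∧ (m * q + 1).Prime)).card :=
      Finset.card_biUnion_le.trans (Finset.sum_le_sum (fun m _ => Finset.card_image_le))
    exact_mod_cast h2
  refine hcard.trans ((Finset.sum_le_sum hstep).trans ?_)
  rw [← Finset.mul_sum]
  have hW61 : 1 ≤ Z ^ 2 := Nat.one_le_pow _ _ (by omega)
  have h2 := hC2 (Z ^ 2) hW61
  have h3 : 0 ≤ 4 * C1 * ((X : ℝ) / (Real.log X) ^ 2) := by positivity
  refine (mul_le_mul_of_nonneg_left h2 h3).trans (le_of_eq ?_)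
  ring

open Filter Topology in
theorem many_smooth (r : ℕ) (hr : 1 ≤ r) : ∃ c : ℝ, 0 < c ∧ ∃ h : ℕ, 6 ≤ h ∧ ∃ Z0 : ℕ,
    ∀ Z : ℕ, Z0 ≤ Z →
    c * ((Z ^ h : ℕ) / Real.log (Z ^ h : ℕ)) ≤ ((smoothPrimes r h Z).card : ℝ) := by
  obtain ⟨C, hC1, X1, hbad⟩ := bad_count
  set c0 : ℝ := 1 / (Nat.totient r : ℝ) with hc0
  have hc0pos : 0 < c0 := by
    rw [hc0]
    have : 0 < Nat.totient r := Nat.totient_pos.2 (by omega)
    positivity
  obtain ⟨h, hh6, hhC⟩ : ∃ h : ℕ, 6 ≤ h ∧ 24 * C / c0 ≤ h :=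
    ⟨max 6 ⌈24 * C / c0⌉₊, le_max_left _ _,
      le_trans (Nat.le_ceil _) (by exact_mod_cast le_max_right _ _)⟩
  have hpnt := Pool.Agent.MP_325d88_nt.pnt_ap r (by omega) 1 (Nat.coprime_one_left r)
  have e1 : ∀ᶠ X : ℕ in atTop, 3 / 4 * c0 ≤ (((Finset.range (X+1)).filter
      (fun p => p.Prime ∧ p ≡ 1 [MOD r])).card : ℝ) * Real.log X / X :=
    (hpnt.eventually (lt_mem_nhds (show 3 / 4 * c0 < 1 / (Nat.totient r : ℝ) by
      rw [← hc0]; linarith))).mono (fun X hX => hX.le)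
  have e2 : ∀ᶠ X : ℕ in atTop, (Nat.sqrt X : ℝ) * Real.log X / X ≤ 1 / 8 * c0 := by
    have h4 := (isLittleO_log_rpow_atTop (show (0:ℝ) < 1/2 by norm_num)).tendsto_div_nhds_zero
    have h5 := (h4.comp tendsto_natCast_atTop_atTop (α := ℕ)).eventually
      (gt_mem_nhds (show (0 : ℝ) < 1 / 8 * c0 by positivity))
    filter_upwards [h5, eventually_ge_atTop 1] with X hX hX1
    have hXr : (1 : ℝ) ≤ X := by exact_mod_cast hX1
    simp only [Function.comp] at hX
    have h6 : (Nat.sqrt X : ℝ) ≤ Real.sqrt X := by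
      apply Real.le_sqrt_of_sq_le
      exact_mod_cast Nat.sqrt_le' X
    have h7 : 0 ≤ Real.log X := Real.log_nonneg hXr
    have h8 : Real.sqrt X * Real.log X / X = Real.log X / (X : ℝ) ^ (1 / 2 : ℝ) := by
      rw [← Real.sqrt_eq_rpow]
      have h9 : Real.sqrt X * Real.sqrt X = (X : ℝ) := Real.mul_self_sqrt (by linarith)
      have h10 : 0 < Real.sqrt X := Real.sqrt_pos.2 (by linarith)
      rw [div_eq_div_iff (by positivity) h10.ne']
      linear_combination (Real.log X) * h9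
    calc (Nat.sqrt X : ℝ) * Real.log X / X ≤ Real.sqrt X * Real.log X / X := by gcongr
      _ = Real.log X / (X : ℝ) ^ (1 / 2 : ℝ) := h8
      _ ≤ _ := hX.le
  obtain ⟨X3, h12⟩ := (e1.and e2).exists_forall_of_atTop
  refine ⟨1 / 2 * c0, by positivity, h, hh6, max X1 (max X3 4), fun Z hZ => ?_⟩
  have hZ1 : X1 ≤ Z := le_trans (le_max_left _ _) hZ
  have hZ3 : X3 ≤ Z := le_trans (le_trans (le_max_left _ _) (le_max_right _ _)) hZ
  have hZ4 : 4 ≤ Z := le_trans (le_trans (le_max_right _ _) (le_max_right _ _)) hZ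
  have hb := hbad h Z hh6 hZ1
  have hcover := Finset.card_le_card (cover_primes r h Z (by omega) (by omega))
  have hZr : (4 : ℝ) ≤ Z := by exact_mod_cast hZ4
  have hlogZ : 1 ≤ Real.log Z := by
    rw [Real.le_log_iff_exp_le (by linarith)]
    have := Real.exp_one_lt_d9
    linarith
  have hlogXZ : Real.log (Z ^ h : ℕ) = h * Real.log Z := by
    push_cast
    rw [Real.log_pow]
  have hlogZ2 : Real.log (Z ^ 2 : ℕ) = 2 * Real.log Z := by
    push_cast
    rw [Real.log_pow]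
    norm_num
  set X := Z ^ h with hX
  have hXZ : Z ≤ X := Nat.le_self_pow (by omega) Z
  obtain ⟨h1, h2⟩ := h12 X (hZ3.trans hXZ)
  have hXr : (4 : ℝ) ≤ X := by
    have : 4 ≤ X := hZ4.trans hXZ
    exact_mod_cast this
  have hXpos : (0 : ℝ) < X := by linarith
  have hlogX : 0 < Real.log X := Real.log_pos (by linarith)
  set full := (Finset.range (X + 1)).filter (fun p => p.Prime ∧ p ≡ 1 [MOD r]) with hfull
  set bad := (Finset.Icc 1 (Z ^ 2)).biUnion (fun m =>
        ((Finset.Icc 1 (X / m)).filter (fun q => q.Prime ∧ (m * q + 1).Prime)).image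
          (fun q => m * q + 1)) with hbaddef
  have hcov2 : (full.card : ℝ) ≤ (smoothPrimes r h Z).card + Nat.sqrt X + bad.card := by
    have h4 : full.card ≤ (smoothPrimes r h Z).card + Nat.sqrt X + bad.card := by
      refine hcover.trans ((Finset.card_union_le _ _).trans ?_)
      refine Nat.add_le_add ((Finset.card_union_le _ _).trans ?_) le_rfl
      rw [Nat.card_Icc, Nat.add_sub_cancel]
    exact_mod_cast h4
  set w := (X : ℝ) / Real.log X with hw
  have hw0 : 0 < w := by positivity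
  have g1 : 3 / 4 * c0 * w ≤ full.card := by
    rw [le_div_iff₀ hXpos] at h1
    rw [hw, ← mul_div_assoc, div_le_iff₀ hlogX]
    exact h1
  have g2 : (Nat.sqrt X : ℝ) ≤ 1 / 8 * c0 * w := by
    rw [div_le_iff₀ hXpos] at h2
    rw [hw, ← mul_div_assoc, le_div_iff₀ hlogX]
    exact h2
  have g3 : (bad.card : ℝ) ≤ 1 / 8 * c0 * w := by
    refine hb.trans ?_
    have h4 : C * ((X : ℝ) / (Real.log X) ^ 2) * (1 + Real.log (Z ^ 2 : ℕ)) =
        (C * (1 + Real.log (Z ^ 2 : ℕ))) / Real.log X * w := by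
      rw [hw]
      field_simp
    rw [h4]
    apply mul_le_mul_of_nonneg_right _ hw0.le
    rw [div_le_iff₀ hlogX, hlogZ2, hlogXZ]
    rw [div_le_iff₀ hc0pos] at hhC
    have h5 : C * (1 + 2 * Real.log Z) ≤ C * (3 * Real.log Z) :=
      mul_le_mul_of_nonneg_left (by linarith) (by linarith)
    have h6 : 24 * C * Real.log Z ≤ h * c0 * Real.log Z :=
      mul_le_mul_of_nonneg_right hhC (by linarith)
    linarith
  linarith

end Pool.Agent.Lib.MP_509488_nt.Density
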