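import Pool.Agent.Lib.MP_509488_nt.Density.Core2
import Pool.Agent.Lib.MP_509488_nt.Density.Smooth2

/-!
# Assembly
-/

namespace Pool.Agent.Lib.MP_509488_nt.Density

open Finset

/-- Few primes of `smoothPrimes r X` divide a given nonzero integer. -/
theorem few_divide (r h Z : ℕ) (Q : ℤ) (hQ : Q ≠ 0) (hZ : 1 ≤ Z) (b : ℝ) (hb : (|Q| : ℤ) ≤ b) :
    (((smoothPrimes r h Z).filter (fun l : ℕ => (l : ℤ) ∣ Q)).card : ℝ) *
      Real.log (Z ^ h : ℕ) ≤ 2 * Real.log b := by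
  classical
  set X := Z ^ h with hXdef
  have hX : 1 ≤ X := Nat.one_le_pow _ _ hZ
  set D := (smoothPrimes r h Z).filter (fun l : ℕ => (l : ℤ) ∣ Q) with hD
  have hDp : ∀ l ∈ D, l.Prime ∧ X < l ^ 2 ∧ (l : ℤ) ∣ Q := by
    intro l hl
    rw [hD, mem_filter] at hl
    unfold smoothPrimes at hl
    rw [mem_filter] at hl
    exact ⟨hl.1.2.1, hl.1.2.2.2.1, hl.2⟩
  have h1 : ∏ l ∈ D, l ∣ Q.natAbs := by
    apply Finset.prod_primes_dvd
    · intro l hl
      exact (hDp l hl).1.prime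
    · intro l hl
      exact Int.natCast_dvd.1 (hDp l hl).2.2
  have h2 : ∏ l ∈ D, l ≤ Q.natAbs := Nat.le_of_dvd (Int.natAbs_pos.2 hQ) h1
  have h3 : X ^ D.card ≤ (∏ l ∈ D, l) ^ 2 := by
    rw [← Finset.prod_pow, ← Finset.prod_const]
    exact Finset.prod_le_prod' (fun l hl => (hDp l hl).2.1.le)
  have h4 : ((X : ℝ)) ^ D.card ≤ b ^ 2 := by
    have h5 : ((X ^ D.card : ℕ) : ℝ) ≤ (((∏ l ∈ D, l) ^ 2 : ℕ) : ℝ) := by exact_mod_cast h3
    have h6 : ((∏ l ∈ D, l : ℕ) : ℝ) ≤ b := by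
      have h7 : ((∏ l ∈ D, l : ℕ) : ℝ) ≤ ((Q.natAbs : ℕ) : ℝ) := by exact_mod_cast h2
      refine h7.trans ?_
      rw [Nat.cast_natAbs]
      exact hb
    have h8 : ((∏ l ∈ D, l : ℕ) : ℝ) ^ 2 ≤ b ^ 2 := pow_le_pow_left₀ (Nat.cast_nonneg _) h6 2
    push_cast at h5 h8
    exact h5.trans h8
  have hX0 : (0 : ℝ) < X := by exact_mod_cast hX
  have h5 := Real.log_le_log (by positivity) h4
  rw [Real.log_pow, Real.log_pow] at h5
  push_cast at h5
  exact h5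

/-- Few primes `l` of a set below `X` have a large `gcd (p, l - 1)`. -/
theorem few_bad (X p : ℕ) (hp : 1 ≤ p) (Λ : Finset ℕ)
    (hΛ : ∀ l ∈ Λ, l.Prime ∧ l ≤ X ∧ X < l ^ 2) (v : ℝ) (hv : Real.exp v ≤ X) :
    ((Λ.filter (fun l => ¬ (1600 * (Nat.gcd p (l - 1)) ^ 2 ≤ l))).card : ℝ) ≤
      p.divisors.card * (40 * X * Real.exp (-(v / 4))) := by
  classical
  set S := p.divisors.filter (fun g : ℕ => Real.exp (v / 4) ≤ 40 * (g : ℝ)) with hS
  have hcov : Λ.filter (fun l => ¬ (1600 * (Nat.gcd p (l - 1)) ^ 2 ≤ l)) ⊆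
      S.biUnion (fun g : ℕ => Λ.filter (fun l : ℕ => g ∣ l - 1)) := by
    intro l hl
    rw [mem_filter] at hl
    obtain ⟨hl1, hl2⟩ := hl
    push Not at hl2
    rw [mem_biUnion]
    refine ⟨Nat.gcd p (l - 1), ?_, ?_⟩
    · rw [hS, mem_filter, Nat.mem_divisors]
      refine ⟨⟨Nat.gcd_dvd_left _ _, by omega⟩, ?_⟩
      set g := Nat.gcd p (l - 1) with hg
      have h1 : X < (1600 * g ^ 2) ^ 2 := (hΛ l hl1).2.2.trans_le (Nat.pow_le_pow_left hl2.le 2)
      have h2 : (X : ℝ) ≤ (40 * (g : ℝ)) ^ 4 := by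
        have h3 : (X : ℝ) ≤ (((1600 * g ^ 2) ^ 2 : ℕ) : ℝ) := by exact_mod_cast h1.le
        push_cast at h3
        calc (X : ℝ) ≤ (1600 * (g : ℝ) ^ 2) ^ 2 := h3
          _ = (40 * (g : ℝ)) ^ 4 := by ring
      have h4 : (Real.exp (v / 4)) ^ 4 ≤ (40 * (g : ℝ)) ^ 4 := by
        rw [← Real.exp_nat_mul]
        have : ((4 : ℕ) : ℝ) * (v / 4) = v := by push_cast; ring
        rw [this]
        exact hv.trans h2
      exact le_of_pow_le_pow_left₀ (by norm_num) (by positivity) h4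
    · rw [mem_filter]
      exact ⟨hl1, Nat.gcd_dvd_right _ _⟩
  have hone : ∀ g ∈ S, ((Λ.filter (fun l : ℕ => g ∣ l - 1)).card : ℝ) ≤
      40 * X * Real.exp (-(v / 4)) := by
    intro g hg
    rw [hS, mem_filter, Nat.mem_divisors] at hg
    have hg0 : 0 < g := Nat.pos_of_ne_zero (fun h => by
      rw [h] at hg
      exact hg.1.2 (zero_dvd_iff.1 hg.1.1))
    have h1 : (Λ.filter (fun l : ℕ => g ∣ l - 1)).card ≤ (Finset.Icc 1 (X / g)).card := by
      apply Finset.card_le_card_of_injOn (fun l => (l - 1) / g)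
      · intro l hl
        rw [mem_coe, mem_filter] at hl
        rw [mem_coe, mem_Icc]
        obtain ⟨hlp, hlX, _⟩ := hΛ l hl.1
        have hl2 := hlp.two_le
        constructor
        · exact (Nat.one_le_div_iff hg0).2 (Nat.le_of_dvd (by omega) hl.2)
        · exact Nat.div_le_div_right (by omega)
      · intro l hl l' hl' h
        rw [mem_coe, mem_filter] at hl hl'
        simp only at h
        have h2 := Nat.div_mul_cancel hl.2
        have h3 := Nat.div_mul_cancel hl'.2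
        rw [h, h3] at h2
        have := (hΛ l hl.1).1.two_le
        have := (hΛ l' hl'.1).1.two_le
        omega
    rw [Nat.card_Icc, Nat.add_sub_cancel] at h1
    have h2 : ((Λ.filter (fun l : ℕ => g ∣ l - 1)).card : ℝ) ≤ (X : ℝ) / g :=
      le_trans (by exact_mod_cast h1) Nat.cast_div_le
    refine h2.trans ?_
    have hg0r : (0 : ℝ) < g := by exact_mod_cast hg0
    rw [div_le_iff₀ hg0r, Real.exp_neg]
    have h3 := hg.2
    have h4 : (0 : ℝ) < Real.exp (v / 4) := Real.exp_pos _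
    have h5 : 1 ≤ 40 * (g : ℝ) / Real.exp (v / 4) := by
      rw [one_le_div h4]; exact h3
    have hX0 : (0 : ℝ) ≤ X := Nat.cast_nonneg _
    calc (X : ℝ) = X * 1 := (mul_one _).symm
      _ ≤ X * (40 * (g : ℝ) / Real.exp (v / 4)) := mul_le_mul_of_nonneg_left h5 hX0
      _ = 40 * X * (Real.exp (v / 4))⁻¹ * g := by
          field_simp
  have h1 : ((Λ.filter (fun l => ¬ (1600 * (Nat.gcd p (l - 1)) ^ 2 ≤ l))).card : ℝ) ≤
      ∑ g ∈ S, ((Λ.filter (fun l : ℕ => g ∣ l - 1)).card : ℝ) := by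
    exact_mod_cast (Finset.card_le_card hcov).trans Finset.card_biUnion_le
  refine h1.trans ((Finset.sum_le_sum hone).trans ?_)
  rw [Finset.sum_const, nsmul_eq_mul]
  apply mul_le_mul_of_nonneg_right _ (by positivity)
  exact_mod_cast Finset.card_filter_le _ _

theorem log_factorial_sq (Y X : ℕ) (hYX : Y ≤ X) :
    Real.log (((Y.factorial) ^ 2 : ℕ) : ℝ) ≤ 2 * (Y * Real.log X) := by
  have hfac : (((Y.factorial) ^ 2 : ℕ) : ℝ) ≤ (X : ℝ) ^ (2 * Y) := by
    have h1 : Y.factorial ≤ X ^ Y :=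
      (Nat.factorial_le_pow Y).trans (Nat.pow_le_pow_left hYX Y)
    have h2 : (Y.factorial) ^ 2 ≤ X ^ (2 * Y) := by
      calc (Y.factorial) ^ 2 ≤ (X ^ Y) ^ 2 := Nat.pow_le_pow_left h1 2
        _ = X ^ (2 * Y) := by rw [← pow_mul, mul_comm]
    exact_mod_cast h2
  have hpos : (0 : ℝ) < (((Y.factorial) ^ 2 : ℕ) : ℝ) := by
    have : 0 < (Y.factorial) ^ 2 := by
      have := Y.factorial_pos
      positivity
    exact_mod_cast this
  have h1 := Real.log_le_log hpos hfac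
  rw [Real.log_pow] at h1
  push_cast at h1 ⊢
  linarith

theorem choose_lower (t u : ℕ) (κ : ℝ) (hκ : 1 ≤ κ) (h : 2 * κ * u ≤ t) :
    κ ^ u ≤ (t.choose u : ℝ) := by
  have hu0 : (0 : ℝ) ≤ u := Nat.cast_nonneg _
  have h2u : 2 * (u : ℝ) ≤ t := by nlinarith
  have hut : u ≤ t := by
    have : (u : ℝ) ≤ t := by linarith
    exact_mod_cast this
  have h1 := Nat.pow_le_choose (α := ℝ) u t
  have h2 : ((t + 1 - u : ℕ) : ℝ) = (t : ℝ) + 1 - u := by
    rw [Nat.cast_sub (by omega)]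
    push_cast
    ring
  have h3 : κ * u ≤ ((t + 1 - u : ℕ) : ℝ) := by
    rw [h2]; linarith
  have h4 : (κ * u) ^ u ≤ ((t + 1 - u : ℕ) : ℝ) ^ u := pow_le_pow_left₀ (by positivity) h3 u
  have h5 : ((u.factorial : ℕ) : ℝ) ≤ (u : ℝ) ^ u := by exact_mod_cast Nat.factorial_le_pow u
  have h6 : (0 : ℝ) < (u.factorial : ℝ) := by exact_mod_cast u.factorial_pos
  have h7 : κ ^ u * (u.factorial : ℝ) ≤ (κ * u) ^ u := by
    rw [mul_pow]
    exact mul_le_mul_of_nonneg_left h5 (by positivity)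
  calc κ ^ u ≤ (κ * u) ^ u / (u.factorial : ℝ) := (le_div_iff₀ h6).2 h7
    _ ≤ ((t + 1 - u : ℕ) : ℝ) ^ u / (u.factorial : ℝ) := div_le_div_of_nonneg_right h4 h6.le
    _ ≤ (t.choose u : ℝ) := h1

end Pool.Agent.Lib.MP_509488_nt.Density
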