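import Pool.Agent.Lib.MP_325d88_nt.Upper3

/-!
# Upper bound for the number of primes `q ≤ T` with `m q + 1` prime
-/

namespace Pool.Agent.Lib.MP_509488_nt.Density

open Finset Pool.Agent.Lib.MP_325d88_nt Pool.Agent.Lib.MP_369a91_nt

theorem lin_pair_local (p : ℕ) (hp : p.Prime) (m : ℕ) :
    ∑ t ∈ Finset.Ico (0 : ℤ) p, (if (p : ℤ) ∣ t ∨ (p : ℤ) ∣ m * t + 1 then (1 : ℝ) else 0) =
      if p ∣ m then 1 else 2 := by
  have hone : ¬ (p : ℤ) ∣ 1 := by
    intro h1
    have h2 := Int.eq_one_of_dvd_one (by positivity) h1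
    have := hp.one_lt
    omega
  have e1 := lin_count p hp 1 0 hone
  split_ifs with hd
  · refine Eq.trans ?_ e1
    apply Finset.sum_congr rfl
    intro t _
    unfold dv
    simp only [zero_add, one_mul]
    congr 1
    rw [eq_iff_iff]
    constructor
    · rintro (h1 | h1)
      · exact h1
      · exfalso
        have h3 : (p : ℤ) ∣ (m : ℤ) := by exact_mod_cast hd
        apply hone
        have : (1 : ℤ) = m * t + 1 - m * t := by ring
        rw [this]
        exact dvd_sub h1 (Dvd.dvd.mul_right h3 _)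
    · intro h1; left; exact h1
  · have hd' : ¬ (p : ℤ) ∣ (m : ℤ) := by
      intro h; exact hd (by exact_mod_cast h)
    have e2 := lin_count p hp m 1 hd'
    have h2 : ∑ t ∈ Finset.Ico (0 : ℤ) p, (dv p (0 + 1 * t) + dv p (1 + m * t)) = 2 := by
      rw [Finset.sum_add_distrib, e1, e2]; norm_num
    refine Eq.trans ?_ h2
    apply Finset.sum_congr rfl
    intro t _
    unfold dv
    simp only [zero_add, one_mul]
    by_cases h3 : (p : ℤ) ∣ t
    · have h4 : ¬ (p : ℤ) ∣ (1 + m * t) := by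
        intro h5
        apply hone
        have e : (1 : ℤ) = 1 + m * t - m * t := by ring
        rw [e]
        exact dvd_sub h5 (Dvd.dvd.mul_left h3 _)
      rw [if_pos (Or.inl h3), if_pos h3, if_neg h4, add_zero]
    · by_cases h4 : (p : ℤ) ∣ (1 + m * t)
      · rw [if_pos (Or.inr (by rw [add_comm]; exact h4)), if_neg h3, if_pos h4, zero_add]
      · rw [if_neg, if_neg h3, if_neg h4, add_zero]
        rintro (h5 | h5)
        · exact h3 h5
        · exact h4 (by rw [add_comm]; exact h5)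

theorem log_sq_le (T : ℝ) (hT : 1 ≤ T) : (Real.log T) ^ 2 ≤ 16 * Real.sqrt T := by
  have h1 : Real.log T ≤ T ^ (1 / 4 : ℝ) / (1 / 4) :=
    Real.log_le_rpow_div (by linarith) (by norm_num)
  have h2 : 0 ≤ Real.log T := Real.log_nonneg hT
  have h3 : (T ^ (1 / 4 : ℝ)) ^ 2 = Real.sqrt T := by
    rw [← Real.rpow_natCast, ← Real.rpow_mul (by linarith), Real.sqrt_eq_rpow]
    norm_num
  calc (Real.log T) ^ 2 ≤ (T ^ (1 / 4 : ℝ) / (1 / 4)) ^ 2 := pow_le_pow_left₀ h2 h1 2
    _ = 16 * (T ^ (1 / 4 : ℝ)) ^ 2 := by ring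
    _ = 16 * Real.sqrt T := by rw [h3]

theorem lin_pair_sieve : ∃ C : ℝ, 1 ≤ C ∧ ∃ T0 : ℕ, 2 ≤ T0 ∧ ∀ T : ℕ, T0 ≤ T → ∀ m : ℕ, 1 ≤ m →
    (((Finset.Icc 1 T).filter (fun q => q.Prime ∧ (m * q + 1).Prime)).card : ℝ) ≤
      C * ((m : ℝ) / Nat.totient m) * (T / (Real.log T) ^ 2) := by
  classical
  obtain ⟨b0, hb0⟩ := good_ev 2 (1 / 6) (by norm_num) (by norm_num) 0
  have hg := hb0 b0 le_rfl
  rw [pow_zero, div_one] at hg
  obtain ⟨Z0, hls⟩ := line_sieve 2 (by norm_num) (1 / 6) (by norm_num) (by norm_num) b0 hg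
  obtain ⟨s, hs⟩ : ∃ s : ℕ, s = 8 * b0 + 15 := ⟨_, rfl⟩
  rw [← hs] at hls
  have hs1 : 2 ≤ s := by omega
  obtain ⟨P0, hP0⟩ := exists_root s (by omega) (max Z0 5)
  refine ⟨14 * (2 * s) ^ 2 + 16, ?_, max P0 2, le_max_right _ _, ?_⟩
  · have : (2 : ℝ) ≤ s := by exact_mod_cast hs1
    nlinarith
  intro P hP m hm
  obtain ⟨z, hz0, hzs, hz2⟩ := hP0 P (le_trans (le_max_left _ _) hP)
  have hP2 : 2 ≤ P := le_trans (le_max_right _ _) hP
  have hzZ : Z0 ≤ z := le_trans (le_max_left _ _) hz0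
  have hz5 : 5 ≤ z := le_trans (le_max_right _ _) hz0
  have hzP : z ^ 2 ≤ P := le_trans (Nat.pow_le_pow_right (by omega) hs1) hzs
  set g : ℕ → ℝ := fun p => if p ∈ PR 4 z then (if p ∣ m then 1 / (p : ℝ) else 2 / (p : ℝ)) else 0
    with hgdef
  have hgP : ∀ p ∈ PR 4 z, g p = if p ∣ m then 1 / (p : ℝ) else 2 / (p : ℝ) := by
    intro p hp
    rw [hgdef]; simp only [if_pos hp]
  have hb : ∀ p ∈ PR 4 z, (5 : ℝ) ≤ p := by
    intro p hp
    have : 5 ≤ p := (mem_PR.1 hp).1
    exact_mod_cast this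
  have h1 := hls 4 z P (by norm_num) hzZ hzs 1 P le_rfl
    (fun p t => if (p : ℤ) ∣ t ∨ (p : ℤ) ∣ m * t + 1 then (1 : ℝ) else 0)
    (by
      intro p _ t t' htt
      have e1 : (p : ℤ) ∣ t ↔ (p : ℤ) ∣ t' := by
        have := modEq_dvd_iff p t t' 0 htt
        simpa using this
      have e2 := modEq_dvd_iff p (m * t) (m * t') 1 (Int.ModEq.mul_left _ htt)
      simp only [e1, e2])
    (by intro p t; split_ifs <;> simp)
    g
    (by
      intro p; rw [hgdef]; simp only
      split_ifs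
      · positivity
      · positivity
      · exact le_rfl)
    (by
      intro p; rw [hgdef]; simp only
      split_ifs with h2 h3
      · have := hb p h2
        rw [div_le_div_iff₀ (by linarith) (by norm_num)]; linarith
      · have := hb p h2
        rw [div_le_div_iff₀ (by linarith) (by norm_num)]; linarith
      · norm_num)
    (by
      intro p hp
      rw [hgP p hp]
      have := hb p hp
      split_ifs
      · apply div_le_div_of_nonneg_right (by norm_num) (by linarith)
      · exact le_rfl)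
    (by
      intro p hp
      rw [hgP p hp, lin_pair_local p (mem_PR.1 hp).2.2 m]
      have := hb p hp
      split_ifs <;> field_simp)
  have h2 := (abs_le.1 h1).2
  have h3 : ∏ p ∈ PR 4 z, (1 - g p) =
      ∏ p ∈ PR 4 z, (1 - if p ∣ m then 1 / (p : ℝ) else 2 / (p : ℝ)) := by
    apply Finset.prod_congr rfl
    intro p hp
    rw [hgP p hp]
  rw [h3] at h2
  have h4 := pair_prod z m (by omega)
  have hV : VV 4 z = 3 * VV 1 z := by
    have := VV_split 1 4 z (by norm_num) (by omega)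
    rw [VV_1_4] at this
    linarith
  rw [hV] at h4
  have hVV0 := VV_pos 1 z
  have hVup := VV_upper z (by omega)
  -- count
  have hcount : (((Finset.Icc 1 P).filter (fun q => q.Prime ∧ (m * q + 1).Prime)).card : ℝ) ≤
      z + ∑ t ∈ Finset.Ico (1 : ℤ) (1 + P), ∏ p ∈ PR 4 z,
        (1 - if (p : ℤ) ∣ t ∨ (p : ℤ) ∣ m * t + 1 then (1 : ℝ) else 0) := by
    have h5 : (((Finset.Icc 1 P).filter (fun q => q.Prime ∧ (m * q + 1).Prime)).card : ℝ) ≤
        ((Finset.Icc 1 z).card : ℝ) +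
        (((Finset.Icc 1 P).filter (fun q => z < q ∧ q.Prime ∧ (m * q + 1).Prime)).card : ℝ) := by
      have : (Finset.Icc 1 P).filter (fun q => q.Prime ∧ (m * q + 1).Prime) ⊆ Finset.Icc 1 z ∪
          (Finset.Icc 1 P).filter (fun q => z < q ∧ q.Prime ∧ (m * q + 1).Prime) := by
        intro q hq
        rw [mem_filter, mem_Icc] at hq
        rw [mem_union, mem_Icc, mem_filter, mem_Icc]
        by_cases h : q ≤ z
        · left; exact ⟨hq.1.1, h⟩
        · right; exact ⟨hq.1, by omega, hq.2⟩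
      exact_mod_cast (Finset.card_le_card this).trans (Finset.card_union_le _ _)
    refine h5.trans ?_
    rw [Nat.card_Icc, Nat.add_sub_cancel]
    apply add_le_add le_rfl
    rw [← Icc_sum_Ico P (fun t : ℤ => ∏ p ∈ PR 4 z,
        (1 - if (p : ℤ) ∣ t ∨ (p : ℤ) ∣ m * t + 1 then (1 : ℝ) else 0))]
    rw [← Finset.sum_boole]
    apply Finset.sum_le_sum
    intro k _
    have hprod0 : ∀ t : ℤ, 0 ≤ ∏ p ∈ PR 4 z,
        (1 - if (p : ℤ) ∣ t ∨ (p : ℤ) ∣ m * t + 1 then (1 : ℝ) else 0) := by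
      intro t
      apply Finset.prod_nonneg
      intro p _
      split_ifs <;> norm_num
    split_ifs with h7
    · rw [Finset.prod_eq_one]
      intro p hp
      rw [mem_PR] at hp
      rw [if_neg, sub_zero]
      rintro (h8 | h8)
      · have h9 : p ∣ k := by exact_mod_cast h8
        have h10 := (Nat.prime_dvd_prime_iff_eq hp.2.2 h7.2.1).1 h9
        omega
      · have h9 : p ∣ m * k + 1 := by exact_mod_cast h8
        have h10 := (Nat.prime_dvd_prime_iff_eq hp.2.2 h7.2.2).1 h9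
        have h11 : k ≤ m * k := Nat.le_mul_of_pos_left _ (by omega)
        omega
    · exact hprod0 _
  have hPr : (2 : ℝ) ≤ P := by exact_mod_cast hP2
  have hlogP : 0 < Real.log P := Real.log_pos (by linarith)
  have hz5r : (5 : ℝ) ≤ z := by exact_mod_cast hz5
  have hlogz : 0 < Real.log z := Real.log_pos (by linarith)
  have hlogPz : Real.log P ≤ 2 * s * Real.log z := by
    have h8 : (P : ℝ) ≤ (z : ℝ) ^ (2 * s) := by exact_mod_cast hz2
    have h9 := Real.log_le_log (by linarith) h8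
    rw [Real.log_pow] at h9
    push_cast at h9
    linarith
  have hs0 : (0 : ℝ) < s := by
    have : 0 < s := by omega
    exact_mod_cast this
  have hV2 : VV 1 z ≤ 2 * s / Real.log P := by
    refine hVup.trans ?_
    rw [div_le_div_iff₀ hlogz hlogP]
    linarith
  set W : ℝ := (m : ℝ) / Nat.totient m with hW
  have hW1 : 1 ≤ W := by
    rw [hW, one_le_div]
    · exact_mod_cast Nat.totient_le m
    · exact_mod_cast Nat.totient_pos.2 (by omega)
  have hW0 : 0 ≤ W := by linarith
  have h10 : (3 * VV 1 z) ^ 2 * W ≤ 9 * (2 * s / Real.log P) ^ 2 * W := by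
    have : (3 * VV 1 z) ^ 2 ≤ 9 * (2 * s / Real.log P) ^ 2 := by
      rw [mul_pow]
      have := pow_le_pow_left₀ hVV0.le hV2 2
      nlinarith
    exact mul_le_mul_of_nonneg_right this hW0
  have h11 := h4.trans h10
  have hP0r : (0 : ℝ) ≤ P := by linarith
  have h12 := mul_le_mul_of_nonneg_right h11 hP0r
  have hzsmall : (z : ℝ) ≤ 16 * W * (P / Real.log P ^ 2) := by
    have h13 : (z : ℝ) ≤ Real.sqrt P := by
      apply Real.le_sqrt_of_sq_le
      exact_mod_cast hzP
    have h14 := log_sq_le P (by linarith)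
    have h15 : Real.sqrt P ≤ 16 * (P / Real.log P ^ 2) := by
      rw [← mul_div_assoc, le_div_iff₀ (by positivity)]
      calc Real.sqrt P * Real.log P ^ 2 ≤ Real.sqrt P * (16 * Real.sqrt P) :=
            mul_le_mul_of_nonneg_left h14 (Real.sqrt_nonneg _)
        _ = 16 * (Real.sqrt P * Real.sqrt P) := by ring
        _ = 16 * P := by rw [Real.mul_self_sqrt hP0r]
    have h16 : 0 ≤ (P : ℝ) / Real.log P ^ 2 := by positivity
    nlinarith
  calc (((Finset.Icc 1 P).filter (fun q => q.Prime ∧ (m * q + 1).Prime)).card : ℝ)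
      ≤ z + (1 + 3 * (1 / 6)) * ((∏ p ∈ PR 4 z, (1 - if p ∣ m then 1 / (p : ℝ) else 2 / (p : ℝ))) * P) := by
        linarith
    _ ≤ 16 * W * (P / Real.log P ^ 2) + (1 + 3 * (1 / 6)) * (9 * (2 * s / Real.log P) ^ 2 * W * P) := by
        apply add_le_add hzsmall
        apply mul_le_mul_of_nonneg_left h12 (by norm_num)
    _ = (13.5 * (2 * s) ^ 2 + 16) * W * (P / Real.log P ^ 2) := by
        rw [div_pow]; ring
    _ ≤ (14 * (2 * s) ^ 2 + 16) * W * (P / Real.log P ^ 2) := by
        have : 0 ≤ (2 * (s : ℝ)) ^ 2 * W * (P / Real.log P ^ 2) := by positivity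
        nlinarith

theorem inv_succ_le_log (H : ℕ) (hH : 1 ≤ H) :
    1 / ((H : ℝ) + 1) ≤ Real.log (H + 1) - Real.log H := by
  have hH0 : (0 : ℝ) < H := by exact_mod_cast hH
  have h1 := Real.one_sub_inv_le_log_of_pos (x := ((H : ℝ) + 1) / H) (by positivity)
  rw [Real.log_div (by positivity) (by positivity)] at h1
  refine le_trans (le_of_eq ?_) h1
  field_simp
  ring

/-- The averages of `m / φ(m)` with the weights `1 / m`. -/
theorem sing_log_avg : ∃ C : ℝ, 1 ≤ C ∧ ∀ H : ℕ, 1 ≤ H →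
    ∑ m ∈ Finset.Icc 1 H, ((m : ℝ) / Nat.totient m) / m ≤ C * (1 + Real.log H) := by
  obtain ⟨C, hC1, hC⟩ := sing_avg
  refine ⟨C, hC1, ?_⟩
  set a : ℕ → ℝ := fun m => (m : ℝ) / Nat.totient m with ha
  have hA : ∀ H : ℕ, ∑ m ∈ Finset.Icc 1 H, a m ≤ C * H := by
    intro H
    refine le_trans (Finset.sum_le_sum ?_) (hC H)
    intro m hm
    rw [Finset.mem_Icc] at hm
    have h1 : 1 ≤ (m : ℝ) / Nat.totient m := by
      rw [one_le_div]
      · exact_mod_cast Nat.totient_le m
      · exact_mod_cast Nat.totient_pos.2 (by omega)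
    simp only [ha]
    nlinarith
  have hmain : ∀ H : ℕ, 1 ≤ H → ∑ m ∈ Finset.Icc 1 H, a m / m -
      (∑ m ∈ Finset.Icc 1 H, a m) / H ≤ C * Real.log H := by
    intro H hH
    induction H, hH using Nat.le_induction with
    | base => simp
    | succ H hH ih =>
      have hH0 : (0 : ℝ) < H := by exact_mod_cast hH
      rw [← Finset.insert_Icc_right_eq_Icc_add_one (by omega), Finset.sum_insert (by simp),
        Finset.sum_insert (by simp)]
      have h1 := inv_succ_le_log H hH
      have h2 := hA H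
      set S := ∑ m ∈ Finset.Icc 1 H, a m / m
      set A := ∑ m ∈ Finset.Icc 1 H, a m
      push_cast
      have h3 : a (H + 1) / ((H : ℝ) + 1) + S - (a (H + 1) + A) / ((H : ℝ) + 1) =
          (S - A / H) + A / H * (1 / ((H : ℝ) + 1)) := by
        field_simp
        ring
      rw [h3]
      have h4 : A / H ≤ C := by
        rw [div_le_iff₀ hH0]; exact h2
      have h5 : A / H * (1 / ((H : ℝ) + 1)) ≤ C * (Real.log (H + 1) - Real.log H) :=
        (mul_le_mul_of_nonneg_right h4 (by positivity)).trans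
          (mul_le_mul_of_nonneg_left h1 (by linarith))
      linarith
  intro H hH
  have h1 := hmain H hH
  have hH0 : (0 : ℝ) < H := by exact_mod_cast hH
  have h2 : (∑ m ∈ Finset.Icc 1 H, a m) / H ≤ C := by
    rw [div_le_iff₀ hH0]; exact hA H
  linarith

end Pool.Agent.Lib.MP_509488_nt.Density
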